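import Mathlib

set_option autoImplicit false

open FirstOrder

namespace Pool.Agent.R603.AH

/-- The `(n+1)`-ary operations on `ℕ`, with the topology of pointwise convergence (`ℕ` discrete). -/
abbrev Op (n : ℕ) : Type := (Fin (n + 1) → ℕ) → ℕ

/-- The space of all finitary operations of arity at least one, with the sum topology. -/
abbrev AllOps : Type := Σ n : ℕ, Op n

/-- A clone on `ℕ`: a set of finitary operations of arity at least one (given arity by arity) that
contains all projections and is closed under composition. -/
structure Clone where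
  /-- the `(n+1)`-ary members -/
  ops : ∀ n : ℕ, Set (Op n)
  proj_mem : ∀ (n : ℕ) (i : Fin (n + 1)), (fun x => x i) ∈ ops n
  comp_mem : ∀ (n m : ℕ) (f : Op n) (g : Fin (n + 1) → Op m), f ∈ ops n → (∀ i, g i ∈ ops m) →
    (fun x => f (fun i => g i x)) ∈ ops m

/-- The clone as a subset of the space of all operations. -/
def Clone.toSet (C : Clone) : Set AllOps := {p | p.2 ∈ C.ops p.1}

/-- A clone isomorphism: an arity preserving bijection that respects projections and composition. -/
structure CloneIso (C D : Clone) where
  /-- the underlying map -/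
  map : ∀ n : ℕ, C.ops n → D.ops n
  bij : ∀ n : ℕ, Function.Bijective (map n)
  map_proj : ∀ (n : ℕ) (i : Fin (n + 1)),
    (map n ⟨fun x => x i, C.proj_mem n i⟩ : Op n) = fun x => x i
  map_comp : ∀ (n m : ℕ) (f : C.ops n) (g : Fin (n + 1) → C.ops m),
    (map m ⟨fun x => (f : Op n) (fun i => (g i : Op m) x),
      C.comp_mem n m f (fun i => g i) f.2 (fun i => (g i).2)⟩ : Op m) =
    fun x => (map n f : Op n) (fun i => (map m (g i) : Op m) x)

/-- The isomorphism as a map between the two subspaces of the space of all operations. -/
def CloneIso.total {C D : Clone} (ξ : CloneIso C D) : C.toSet → D.toSet :=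
  fun p => ⟨⟨p.1.1, (ξ.map p.1.1 ⟨p.1.2, p.2⟩ : Op p.1.1)⟩, (ξ.map p.1.1 ⟨p.1.2, p.2⟩).2⟩

/-- Automatic homeomorphicity with respect to the class of all closed clones: every clone
isomorphism onto a closed clone is a homeomorphism. -/
def AutomaticHomeomorphicity (C : Clone) : Prop :=
  ∀ D : Clone, IsClosed D.toSet → ∀ ξ : CloneIso C D, IsHomeomorph ξ.total

/-- The operation `f` preserves the `k`-ary relation `R`. -/
def Preserves {n k : ℕ} (f : Op n) (R : Set (Fin k → ℕ)) : Prop :=
  ∀ r : Fin (n + 1) → (Fin k → ℕ), (∀ j, r j ∈ R) → (fun i => f (fun j => r j i)) ∈ R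

/-- The polymorphism clone of the relational structure with domain `ℕ` whose relations are the
members of `A`. -/
def Pol (A : Set (Σ k : ℕ, Set (Fin k → ℕ))) : Clone where
  ops n := {f | ∀ R ∈ A, Preserves f R.2}
  proj_mem := fun _ i _ _ _ hr => hr i
  comp_mem := fun _ _ _ g hf hg R hR r hr =>
    hf R hR (fun j i => g j (fun l => r l i)) (fun j => hg j R hR r hr)

/-- The structure with domain `ℕ` and relations `A` is first-order definable in `(ℕ, =)`: every
relation is definable, without parameters, by a first-order formula in the language of pure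
equality. -/
def DefinableInEquality (A : Set (Σ k : ℕ, Set (Fin k → ℕ))) : Prop :=
  ∀ R ∈ A, @Set.Definable ℕ ∅ Language.empty Language.emptyStructure (Fin R.1) R.2

end Pool.Agent.R603.AH
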