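import Mathlib
import Pool.Agent.R603.AH.Defs

set_option autoImplicit false
set_option linter.unusedVariables false

open Filter

namespace Pool.Agent.R603.AH

/-- the facts used about a clone isomorphism onto a closed clone. -/
structure Setup (C D : Clone) (X : ∀ n, Op n → Op n) : Prop where
  closedC : ∀ n, IsClosed (C.ops n)
  closedD : ∀ n, IsClosed (D.ops n)
  perm : ∀ σ : Equiv.Perm ℕ, (fun x : Fin 1 → ℕ => σ (x 0)) ∈ C.ops 0
  mem : ∀ n f, f ∈ C.ops n → X n f ∈ D.ops n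
  inj : ∀ n f g, f ∈ C.ops n → g ∈ C.ops n → X n f = X n g → f = g
  surj : ∀ n g, g ∈ D.ops n → ∃ f ∈ C.ops n, X n f = g
  proj : ∀ n i, X n (fun x => x i) = fun x => x i
  comp : ∀ n m f (g : Fin (n + 1) → Op m), f ∈ C.ops n → (∀ i, g i ∈ C.ops m) →
    X m (fun x => f (fun i => g i x)) = fun x => X n f (fun i => X m (g i) x)

/-- a unary function as a unary operation -/
def un (u : ℕ → ℕ) : Op 0 := fun x => u (x 0)

/-- a unary operation as a function -/
def dn (p : Op 0) : ℕ → ℕ := fun a => p (fun _ => a)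

lemma un_dn (p : Op 0) : un (dn p) = p := by
  funext x
  show p (fun _ => x 0) = p x
  congr 1
  funext i
  rw [show i = 0 from Subsingleton.elim (α := Fin 1) i 0]

lemma dn_un (u : ℕ → ℕ) : dn (un u) = u := rfl

/-- the unary part -/
def U (C : Clone) : Set (ℕ → ℕ) := {u | un u ∈ C.ops 0}

/-- the action of a unary function through the isomorphism -/
def A (X : ∀ n, Op n → Op n) (u : ℕ → ℕ) : ℕ → ℕ := dn (X 0 (un u))

lemma X_un (X : ∀ n, Op n → Op n) (u : ℕ → ℕ) : X 0 (un u) = un (A X u) := (un_dn _).symm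

/-- members of closed sets of functions to `ℕ` by finite approximation. -/
lemma closed_approx {ι : Type*} {S : Set (ι → ℕ)} (hS : IsClosed S) (f : ι → ℕ)
    (h : ∀ T : Finset ι, ∃ g ∈ S, ∀ t ∈ T, g t = f t) : f ∈ S := by
  rw [← hS.closure_eq, mem_closure_iff]
  intro o ho hf
  obtain ⟨I, u, hI, hsub⟩ := isOpen_pi_iff.1 ho f hf
  obtain ⟨g, hg, hgf⟩ := h I
  refine ⟨g, hsub ?_, hg⟩
  intro i hi
  rw [hgf i hi]
  exact (hI i hi).2

/-- every finite partial injection extends to a permutation. -/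
lemma perm_ext (T : Finset ℕ) (v : ℕ → ℕ) (hv : Set.InjOn v T) :
    ∃ σ : Equiv.Perm ℕ, ∀ t ∈ T, σ t = v t := by
  classical
  induction T using Finset.induction_on with
  | empty => exact ⟨Equiv.refl _, by simp⟩
  | insert x T hx ih =>
    obtain ⟨σ, hσ⟩ := ih (hv.mono (by simp))
    refine ⟨σ.trans (Equiv.swap (σ x) (v x)), ?_⟩
    intro t ht
    rw [Finset.mem_insert] at ht
    rcases ht with rfl | ht
    · simp
    · rw [Equiv.trans_apply, hσ t ht]
      apply Equiv.swap_apply_of_ne_of_ne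
      · rw [← hσ t ht]
        intro h
        exact hx (σ.injective h ▸ ht)
      · intro h
        have := hv (by simp [ht]) (by simp) h
        exact hx (this ▸ ht)

namespace Setup

variable {C D : Clone} {X : ∀ n, Op n → Op n}

lemma perm_mem (S : Setup C D X) (σ : Equiv.Perm ℕ) : (σ : ℕ → ℕ) ∈ U C := S.perm σ

lemma comp_mem (S : Setup C D X) {u v : ℕ → ℕ} (hu : u ∈ U C) (hv : v ∈ U C) : u ∘ v ∈ U C :=
  C.comp_mem 0 0 (un u) (fun _ => un v) hu (fun _ => hv)

lemma A_comp (S : Setup C D X) {u v : ℕ → ℕ} (hu : u ∈ U C) (hv : v ∈ U C) (y : ℕ) :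
    A X (u ∘ v) y = A X u (A X v y) := by
  have h := S.comp 0 0 (un u) (fun _ => un v) hu (fun _ => hv)
  exact congrFun h (fun _ => y)

lemma id_mem (S : Setup C D X) : (id : ℕ → ℕ) ∈ U C := C.proj_mem 0 0

lemma A_id (S : Setup C D X) (y : ℕ) : A X id y = y := by
  have h := S.proj 0 0
  exact congrFun h (fun _ => y)

lemma A_inj (S : Setup C D X) {u v : ℕ → ℕ} (hu : u ∈ U C) (hv : v ∈ U C)
    (h : ∀ y, A X u y = A X v y) : u = v := by
  have h1 : X 0 (un u) = X 0 (un v) := by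
    rw [X_un X u, X_un X v, funext h]
  have h2 := S.inj 0 _ _ hu hv h1
  have h3 := congrArg dn h2
  rwa [dn_un, dn_un] at h3

lemma A_surj (S : Setup C D X) {p : ℕ → ℕ} (hp : un p ∈ D.ops 0) : ∃ u ∈ U C, A X u = p := by
  obtain ⟨f, hf, hfp⟩ := S.surj 0 _ hp
  refine ⟨dn f, ?_, ?_⟩
  · show un (dn f) ∈ C.ops 0
    rwa [un_dn]
  · rw [A, un_dn, hfp, dn_un]

lemma A_mem (S : Setup C D X) {u : ℕ → ℕ} (hu : u ∈ U C) : un (A X u) ∈ D.ops 0 := by
  rw [← X_un X u]
  exact S.mem 0 _ hu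

lemma coord_mem (S : Setup C D X) {n : ℕ} {v : ℕ → ℕ} (hv : v ∈ U C) (i : Fin (n + 1)) :
    (fun t : Fin (n + 1) → ℕ => v (t i)) ∈ C.ops n :=
  C.comp_mem 0 n (un v) (fun _ => fun t => t i) hv (fun _ => C.proj_mem n i)

lemma X_coord (S : Setup C D X) {n : ℕ} {v : ℕ → ℕ} (hv : v ∈ U C) (i : Fin (n + 1)) :
    X n (fun t : Fin (n + 1) → ℕ => v (t i)) = fun y => A X v (y i) := by
  have h := S.comp 0 n (un v) (fun _ => fun t => t i) hv (fun _ => C.proj_mem n i)
  rw [S.proj n i] at h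
  exact h

lemma subst_mem (S : Setup C D X) {n : ℕ} {f : Op n} (hf : f ∈ C.ops n)
    {v : Fin (n + 1) → ℕ → ℕ} (hv : ∀ i, v i ∈ U C) :
    (fun t => f (fun i => v i (t i))) ∈ C.ops n :=
  C.comp_mem n n f (fun i t => v i (t i)) hf (fun i => S.coord_mem (hv i) i)

lemma X_subst (S : Setup C D X) {n : ℕ} {f : Op n} (hf : f ∈ C.ops n)
    {v : Fin (n + 1) → ℕ → ℕ} (hv : ∀ i, v i ∈ U C) (y : Fin (n + 1) → ℕ) :
    X n (fun t => f (fun i => v i (t i))) y = X n f (fun i => A X (v i) (y i)) := by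
  have h := S.comp n n f (fun i t => v i (t i)) hf (fun i => S.coord_mem (hv i) i)
  rw [h]
  show X n f _ = _
  congr 1
  funext i
  rw [S.X_coord (hv i) i]

lemma diag_mem (S : Setup C D X) {n : ℕ} {f : Op n} (hf : f ∈ C.ops n)
    {v : Fin (n + 1) → ℕ → ℕ} (hv : ∀ i, v i ∈ U C) :
    (fun a => f (fun i => v i a)) ∈ U C :=
  C.comp_mem n 0 f (fun i => un (v i)) hf hv

lemma A_diag (S : Setup C D X) {n : ℕ} {f : Op n} (hf : f ∈ C.ops n)
    {v : Fin (n + 1) → ℕ → ℕ} (hv : ∀ i, v i ∈ U C) (y : ℕ) :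
    A X (fun a => f (fun i => v i a)) y = X n f (fun i => A X (v i) y) := by
  have h := S.comp n 0 f (fun i => un (v i)) hf hv
  exact congrFun h (fun _ => y)

lemma post_mem (S : Setup C D X) {n : ℕ} {f : Op n} (hf : f ∈ C.ops n)
    {u : ℕ → ℕ} (hu : u ∈ U C) : (fun t => u (f t)) ∈ C.ops n :=
  C.comp_mem 0 n (un u) (fun _ => f) hu (fun _ => hf)

lemma X_post (S : Setup C D X) {n : ℕ} {f : Op n} (hf : f ∈ C.ops n)
    {u : ℕ → ℕ} (hu : u ∈ U C) (y : Fin (n + 1) → ℕ) :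
    X n (fun t => u (f t)) y = A X u (X n f y) := by
  have h := S.comp 0 n (un u) (fun _ => f) hu (fun _ => hf)
  exact congrFun h y

/-- every injective function belongs to the clone. -/
lemma inj_mem (S : Setup C D X) {v : ℕ → ℕ} (hv : Function.Injective v) : v ∈ U C := by
  classical
  refine closed_approx (S.closedC 0) (un v) fun T => ?_
  obtain ⟨σ, hσ⟩ := perm_ext (T.image (fun x => x 0)) v hv.injOn
  refine ⟨un σ, S.perm_mem σ, fun t ht => ?_⟩
  exact hσ (t 0) (Finset.mem_image_of_mem _ ht)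

end Setup

end Pool.Agent.R603.AH
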