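import Mathlib
import Pool.Agent.H330.Ramsey
import Pool.Agent.R603.AH.Defs

set_option autoImplicit false
set_option linter.unusedVariables false

namespace Pool.Agent.R603.AH

/-- the function that is the identity below `m` and `h` from `m` on. -/
def bt (m : ℕ) (h : ℕ → ℕ) : ℕ → ℕ := fun x => if x < m then x else h x

/-- evaluation of a code. -/
def ev {n m r : ℕ} (a : Fin r → ℕ) (τ : Fin (n + 1) → Fin m ⊕ Fin r) : Fin (n + 1) → ℕ :=
  fun j => Sum.elim (fun i : Fin m => (i : ℕ)) a (τ j)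

lemma exists_code (n m : ℕ) (t t' : Fin (n + 1) → ℕ) :
    ∃ (a : Fin (2 * (n + 1)) → ℕ) (τ τ' : Fin (n + 1) → Fin m ⊕ Fin (2 * (n + 1))),
      StrictMono a ∧ (∀ i, m ≤ a i) ∧ t = ev a τ ∧ t' = ev a τ' := by
  classical
  let E : Finset ℕ := (Finset.univ.image fun j => t j - m) ∪ (Finset.univ.image fun j => t' j - m)
  have hE : E.card ≤ 2 * (n + 1) := by
    refine (Finset.card_union_le _ _).trans ?_
    have h1 : (Finset.univ.image fun j : Fin (n + 1) => t j - m).card ≤ n + 1 := by
      refine Finset.card_image_le.trans ?_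
      simp
    have h2 : (Finset.univ.image fun j : Fin (n + 1) => t' j - m).card ≤ n + 1 := by
      refine Finset.card_image_le.trans ?_
      simp
    omega
  obtain ⟨S, hES, hS⟩ := Infinite.exists_superset_card_eq E _ hE
  have hcode : ∀ s : Fin (n + 1) → ℕ, (∀ j, s j - m ∈ S) →
      ∃ τ : Fin (n + 1) → Fin m ⊕ Fin (2 * (n + 1)),
        s = ev (fun i => S.orderEmbOfFin hS i + m) τ := by
    intro s hs
    have : ∀ j, ∃ c : Fin m ⊕ Fin (2 * (n + 1)), s j =
        Sum.elim (fun i : Fin m => (i : ℕ)) (fun i => S.orderEmbOfFin hS i + m) c := by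
      intro j
      by_cases hj : s j < m
      · exact ⟨Sum.inl ⟨s j, hj⟩, rfl⟩
      · have h1 : s j - m ∈ Set.range (S.orderEmbOfFin hS) := by
          rw [Finset.range_orderEmbOfFin]
          exact Finset.mem_coe.2 (hs j)
        obtain ⟨i, hi⟩ := h1
        refine ⟨Sum.inr i, ?_⟩
        show s j = S.orderEmbOfFin hS i + m
        rw [hi]
        omega
    choose τ hτ using this
    exact ⟨τ, funext hτ⟩
  obtain ⟨τ, hτ⟩ := hcode t fun j => hES (Finset.mem_union_left _
    (Finset.mem_image_of_mem _ (Finset.mem_univ j)))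
  obtain ⟨τ', hτ'⟩ := hcode t' fun j => hES (Finset.mem_union_right _
    (Finset.mem_image_of_mem _ (Finset.mem_univ j)))
  refine ⟨_, τ, τ', ?_, ?_, hτ, hτ'⟩
  · intro i j hij
    have := (S.orderEmbOfFin hS).strictMono hij
    simpa using this
  · intro i
    exact Nat.le_add_left _ _

/-- The canonical form of the kernel of an operation: finitely many kernels suffice. -/
theorem ramsey_kernel (n m : ℕ) : ∃ (K : Type) (_ : Finite K)
    (R : K → (Fin (n + 1) → ℕ) → (Fin (n + 1) → ℕ) → Prop), ∀ f : Op n, ∃ (k : K) (h : ℕ → ℕ),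
      Function.Injective h ∧ (∀ z, Odd (h z) ∧ m ≤ h z) ∧
      ∀ t t', (f (fun j => bt m h (t j)) = f (fun j => bt m h (t' j)) ↔ R k t t') := by
  classical
  let r : ℕ := 2 * (n + 1)
  let K : Type := Set ((Fin (n + 1) → Fin m ⊕ Fin r) × (Fin (n + 1) → Fin m ⊕ Fin r))
  let q : ℕ → ℕ := fun z => 2 * (z + m) + 1
  refine ⟨K, inferInstanceAs (Finite (Set _)), fun k t t' => ∃ (a : Fin r → ℕ)
    (τ τ' : Fin (n + 1) → Fin m ⊕ Fin r), StrictMono a ∧ (∀ i, m ≤ a i) ∧ t = ev a τ ∧
      t' = ev a τ' ∧ (τ, τ') ∈ k, ?_⟩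
  intro f
  let colour : Finset ℕ → K := fun S => if hS : S.card = r then
    {p | f (ev (fun i => q (S.orderEmbOfFin hS i)) p.1) =
      f (ev (fun i => q (S.orderEmbOfFin hS i)) p.2)} else ∅
  obtain ⟨H, c, hH, hc⟩ := Pool.Agent.H330.infinite_ramsey r colour
  have hHs : (Set.ofPred fun x => x ∈ H).Infinite := hH
  let nh : ℕ → ℕ := Nat.nth (fun x => x ∈ H)
  have hnm : StrictMono nh := Nat.nth_strictMono hHs
  have hnH : ∀ z, nh z ∈ H := fun z => Nat.nth_mem_of_infinite hHs z
  have hqm : StrictMono q := by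
    intro a b hab
    show 2 * (a + m) + 1 < 2 * (b + m) + 1
    omega
  let h : ℕ → ℕ := fun z => q (nh z)
  have key : ∀ (a : Fin r → ℕ) (τ τ' : Fin (n + 1) → Fin m ⊕ Fin r), StrictMono a →
      (∀ i, m ≤ a i) → (f (fun j => bt m h (ev a τ j)) = f (fun j => bt m h (ev a τ' j)) ↔
        (τ, τ') ∈ c) := by
    intro a τ τ' ha ham
    have hna : StrictMono fun i => nh (a i) := hnm.comp ha
    let S : Finset ℕ := Finset.univ.image fun i => nh (a i)
    have hS : S.card = r := by
      rw [Finset.card_image_of_injective _ hna.injective]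
      simp
    have hSH : (↑S : Set ℕ) ⊆ H := by
      intro x hx
      obtain ⟨i, -, rfl⟩ := Finset.mem_image.1 (Finset.mem_coe.1 hx)
      exact hnH _
    have hord : (fun i => nh (a i)) = S.orderEmbOfFin hS :=
      Finset.orderEmbOfFin_unique hS (fun i => Finset.mem_image_of_mem _ (Finset.mem_univ i)) hna
    have hbt : ∀ σ : Fin (n + 1) → Fin m ⊕ Fin r, (fun j => bt m h (ev a σ j)) =
        ev (fun i => q (S.orderEmbOfFin hS i)) σ := by
      intro σ
      funext j
      unfold ev
      rcases σ j with i | i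
      · exact if_pos i.2
      · show bt m h (a i) = q (S.orderEmbOfFin hS i)
        rw [← congrFun hord i]
        exact if_neg (not_lt.2 (ham i))
    have h1 := hc S hS hSH
    rw [hbt, hbt, ← h1]
    show _ ↔ (τ, τ') ∈ (if hS : S.card = r then
      {p | f (ev (fun i => q (S.orderEmbOfFin hS i)) p.1) =
      f (ev (fun i => q (S.orderEmbOfFin hS i)) p.2)} else ∅ : K)
    rw [dif_pos hS]
    exact Iff.rfl
  refine ⟨c, h, (hqm.comp hnm).injective, ?_, ?_⟩
  · intro z
    refine ⟨⟨nh z + m, rfl⟩, ?_⟩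
    show m ≤ 2 * (nh z + m) + 1
    omega
  · intro t t'
    constructor
    · intro heq
      obtain ⟨a, τ, τ', ha, ham, ht, ht'⟩ := exists_code n m t t'
      refine ⟨a, τ, τ', ha, ham, ht, ht', ?_⟩
      rw [ht, ht'] at heq
      exact (key a τ τ' ha ham).1 heq
    · rintro ⟨a, τ, τ', ha, ham, ht, ht', hmem⟩
      rw [ht, ht']
      exact (key a τ τ' ha ham).2 hmem

end Pool.Agent.R603.AH
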