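import Mathlib
import Pool.Agent.R603.AH.Base

set_option autoImplicit false
set_option linter.unusedVariables false

open Filter

namespace Pool.Agent.R603.AH

/-- injections with infinite complement of the range -/
def Coinf (u : ℕ → ℕ) : Prop := Function.Injective u ∧ (Set.range u)ᶜ.Infinite

lemma Coinf.comp_left {f g : ℕ → ℕ} (hf : Function.Injective f) (hg : Coinf g) : Coinf (f ∘ g) := by
  refine ⟨hf.comp hg.1, (hg.2.image hf.injOn).mono ?_⟩
  rintro _ ⟨x, hx, rfl⟩ ⟨z, hz⟩
  exact hx ⟨z, hf hz⟩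

lemma Coinf.comp_right {f g : ℕ → ℕ} (hf : Coinf f) (hg : Function.Injective g) :
    Coinf (f ∘ g) := by
  refine ⟨hf.1.comp hg, hf.2.mono ?_⟩
  intro x hx hx'
  obtain ⟨z, hz⟩ := hx'
  exact hx ⟨g z, hz⟩

/-- the standard coinfinite injection that is the identity up to `k` -/
def ek (k : ℕ) : ℕ → ℕ := fun x => if x ≤ k then x else 2 * x

lemma ek_of_le {k x : ℕ} (h : x ≤ k) : ek k x = x := if_pos h

lemma ek_coinf (k : ℕ) : Coinf (ek k) := by
  constructor
  · intro x x' h
    unfold ek at h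
    split_ifs at h <;> omega
  · have hinj : Function.Injective (fun j : ℕ => 2 * (j + k) + 1) := by
      intro a b h
      simp only at h
      omega
    refine (Set.infinite_range_of_injective hinj).mono ?_
    rintro _ ⟨j, rfl⟩ ⟨x, hx⟩
    simp only [ek] at hx
    split_ifs at hx <;> omega

lemma exists_emb {Z : Set ℕ} (hZ : Z.Infinite) :
    ∃ e : ℕ → ℕ, Function.Injective e ∧ ∀ n, e n ∈ Z :=
  ⟨fun n => (Set.Infinite.natEmbedding Z hZ n : ℕ),
    fun a b h => (Set.Infinite.natEmbedding Z hZ).injective (Subtype.ext h),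
    fun n => (Set.Infinite.natEmbedding Z hZ n).2⟩

lemma exists_sparse {Z Z' : Set ℕ} (hZ : Z.Infinite) (hZ' : Z'.Infinite) :
    ∃ E ⊆ Z, E.Infinite ∧ (Z \ E).Infinite ∧ (Z' \ E).Infinite := by
  obtain ⟨e, he, heZ⟩ := exists_emb hZ
  have hinj : ∀ a b, e a = e b → a = b := fun a b h => he h
  let Z1 : Set ℕ := Set.range fun n => e (2 * n)
  let Z2 : Set ℕ := Set.range fun n => e (2 * n + 1)
  have h1 : Z1.Infinite := Set.infinite_range_of_injective fun a b h => by
    have := hinj _ _ h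
    omega
  have h2 : Z2.Infinite := Set.infinite_range_of_injective fun a b h => by
    have := hinj _ _ h
    omega
  have h12 : ∀ x, x ∈ Z1 → x ∈ Z2 → False := by
    rintro x ⟨a, ha⟩ ⟨b, hb⟩
    simp only at ha hb
    have := hinj _ _ (ha.trans hb.symm)
    omega
  have hs1 : Z1 ⊆ Z := by
    rintro _ ⟨a, rfl⟩
    exact heZ _
  have hs2 : Z2 ⊆ Z := by
    rintro _ ⟨a, rfl⟩
    exact heZ _
  by_cases h : (Z' \ Z1).Infinite
  · exact ⟨Z1, hs1, h1, h2.mono fun x hx => ⟨hs2 hx, fun hx1 => h12 x hx1 hx⟩, h⟩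
  · refine ⟨Z2, hs2, h2, h1.mono fun x hx => ⟨hs1 hx, fun hx2 => h12 x hx hx2⟩, ?_⟩
    rw [Set.not_infinite] at h
    have h3 : (Z' ∩ Z1).Infinite := by
      intro hfin
      apply hZ'
      have : Z' ⊆ (Z' \ Z1) ∪ (Z' ∩ Z1) := by
        intro x hx
        by_cases hx1 : x ∈ Z1
        · exact Or.inr ⟨hx, hx1⟩
        · exact Or.inl ⟨hx, hx1⟩
      exact (h.union hfin).subset this
    exact h3.mono fun x hx => ⟨hx.1, fun hx2 => h12 x hx.2 hx2⟩

namespace Setup

variable {C D : Clone} {X : ∀ n, Op n → Op n}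

lemma actA (S : Setup C D X) {y m : ℕ} {us ut : ℕ → ℕ} (hus : Function.Injective us)
    (hut : Function.Injective ut) (hst : ∀ n n', us n = ut n' ↔ n = n' ∧ n ≤ m)
    (hy : A X us y = A X ut y) {u w : ℕ → ℕ} (hu : Function.Injective u)
    (hw : Function.Injective w) (huw : ∀ n ≤ m, u n = w n)
    (hdisj : ∀ n, m < n → ∀ n', w n ≠ u n')
    (hroom : (Set.range u ∪ Set.range w)ᶜ.Infinite) : A X u y = A X w y := by
  obtain ⟨room, hroom2, hroom1⟩ := exists_emb hroom
  let π : ℕ → ℕ := Function.extend us u (Function.extend ut w room)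
  have hπs : ∀ n, π (us n) = u n := fun n => hus.extend_apply _ _ _
  have hnr : ∀ n, m < n → ¬ ∃ a, us a = ut n := by
    rintro n hn ⟨a, ha⟩
    have := (hst a n).1 ha
    omega
  have hπt : ∀ n, π (ut n) = w n := by
    intro n
    by_cases hn : n ≤ m
    · rw [← (hst n n).2 ⟨rfl, hn⟩, hπs, huw n hn]
    · show Function.extend us u (Function.extend ut w room) (ut n) = w n
      rw [Function.extend_apply' _ _ _ (hnr n (not_le.1 hn)), hut.extend_apply]
  have hclass : ∀ z, (∃ a, z = us a ∧ π z = u a) ∨ (∃ a, m < a ∧ z = ut a ∧ π z = w a) ∨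
      π z = room z := by
    intro z
    by_cases h1 : ∃ a, us a = z
    · obtain ⟨a, rfl⟩ := h1
      exact Or.inl ⟨a, rfl, hπs a⟩
    · by_cases h2 : ∃ a, ut a = z
      · obtain ⟨a, rfl⟩ := h2
        refine Or.inr (Or.inl ⟨a, ?_, rfl, hπt a⟩)
        by_contra hle
        exact h1 ⟨a, (hst a a).2 ⟨rfl, not_lt.1 hle⟩⟩
      · refine Or.inr (Or.inr ?_)
        show Function.extend us u (Function.extend ut w room) z = room z
        rw [Function.extend_apply' _ _ _ h1, Function.extend_apply' _ _ _ h2]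
  have hπ : Function.Injective π := by
    intro z z' h
    rcases hclass z with ⟨a, hz, hza⟩ | ⟨a, hm, hz, hza⟩ | hza <;>
      rcases hclass z' with ⟨b, hz', hzb⟩ | ⟨b, hm', hz', hzb⟩ | hzb <;>
      rw [hza, hzb] at h
    · rw [hz, hz', hu h]
    · exact absurd h.symm (hdisj b hm' a)
    · exact absurd (Or.inl ⟨a, h⟩) (hroom1 z')
    · exact absurd h (hdisj a hm b)
    · rw [hz, hz', hw h]
    · exact absurd (Or.inr ⟨a, h⟩) (hroom1 z')
    · exact absurd (Or.inl ⟨b, h.symm⟩) (hroom1 z)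
    · exact absurd (Or.inr ⟨b, h.symm⟩) (hroom1 z)
    · exact hroom2 h
  have e1 : π ∘ us = u := funext hπs
  have e2 : π ∘ ut = w := funext hπt
  rw [← e1, ← e2, S.A_comp (S.inj_mem hπ) (S.inj_mem hus),
    S.A_comp (S.inj_mem hπ) (S.inj_mem hut), hy]

lemma exists_pair (S : Setup C D X) (y : ℕ) : ∃ (m : ℕ) (us ut : ℕ → ℕ),
    Function.Injective us ∧ Function.Injective ut ∧ (∀ n n', us n = ut n' ↔ n = n' ∧ n ≤ m) ∧
    A X us y = A X ut y := by
  classical
  let code : Set ℕ → ℕ → ℕ := fun s n =>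
    Encodable.encode ((List.range n).map (fun i => decide (i ∈ s)))
  have hcode : ∀ s t n n', code s n = code t n' ↔ n = n' ∧ ∀ i < n, (i ∈ s ↔ i ∈ t) := by
    intro s t n n'
    constructor
    · intro h
      have h1 := Encodable.encode_injective h
      have h2 := congrArg List.length h1
      simp only [List.length_map, List.length_range] at h2
      subst h2
      refine ⟨rfl, fun i hi => ?_⟩
      have h3 := List.map_inj_left.1 h1 i (List.mem_range.2 hi)
      simpa using h3
    · rintro ⟨rfl, h⟩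
      show Encodable.encode _ = Encodable.encode _
      congr 1
      apply List.map_congr_left
      intro i hi
      have := h i (List.mem_range.1 hi)
      simp [this]
  have hinj : ∀ s, Function.Injective (code s) := fun s n n' h => ((hcode s s n n').1 h).1
  have hc := Function.cantor_injective (fun s : Set ℕ => A X (code s) y)
  obtain ⟨s, t, hst, hne⟩ : ∃ s t, A X (code s) y = A X (code t) y ∧ s ≠ t := by
    by_contra hcon
    push Not at hcon
    exact hc fun s t h => hcon s t h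
  have hex : ∃ i, ¬ (i ∈ s ↔ i ∈ t) := by
    by_contra hcon
    push Not at hcon
    exact hne (Set.ext hcon)
  refine ⟨Nat.find hex, code s, code t, hinj s, hinj t, ?_, hst⟩
  intro n n'
  rw [hcode]
  refine and_congr_right fun _ => ?_
  constructor
  · intro h
    by_contra hlt
    exact Nat.find_spec hex (h _ (not_le.1 hlt))
  · intro h i hi
    exact not_not.1 (Nat.find_min hex (lt_of_lt_of_le hi h))

lemma stepOne (S : Setup C D X) {y m : ℕ} {us ut : ℕ → ℕ} (hus : Function.Injective us)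
    (hut : Function.Injective ut) (hst : ∀ n n', us n = ut n' ↔ n = n' ∧ n ≤ m)
    (hy : A X us y = A X ut y) {u u' : ℕ → ℕ} (hu : Function.Injective u)
    (hu' : Function.Injective u') (huu : ∀ n ≤ m, u n = u' n)
    (hR : ((Set.range u)ᶜ ∩ (Set.range u')ᶜ).Infinite) : A X u y = A X u' y := by
  obtain ⟨e, he2, he1⟩ := exists_emb hR
  let w : ℕ → ℕ := fun n => if n ≤ m then u n else e (2 * n)
  have hw1 : ∀ n ≤ m, w n = u n := fun n hn => if_pos hn
  have hw2 : ∀ n, m < n → w n = e (2 * n) := fun n hn => if_neg (not_le.2 hn)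
  have hw : Function.Injective w := by
    intro a b h
    by_cases ha : a ≤ m <;> by_cases hb : b ≤ m
    · rw [hw1 a ha, hw1 b hb] at h
      exact hu h
    · rw [hw1 a ha, hw2 b (not_le.1 hb)] at h
      exact absurd ⟨a, h⟩ (he1 (2 * b)).1
    · rw [hw1 b hb, hw2 a (not_le.1 ha)] at h
      exact absurd ⟨b, h.symm⟩ (he1 (2 * a)).1
    · rw [hw2 a (not_le.1 ha), hw2 b (not_le.1 hb)] at h
      have := he2 h
      omega
  have hinf : Set.Infinite (Set.range fun n : ℕ => e (2 * n + 1)) :=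
    Set.infinite_range_of_injective fun a b h => by
      have := he2 h
      omega
  have hnw : ∀ n, e (2 * n + 1) ∉ Set.range w := by
    rintro n ⟨a, ha⟩
    by_cases ham : a ≤ m
    · rw [hw1 a ham] at ha
      exact (he1 (2 * n + 1)).1 ⟨a, ha⟩
    · rw [hw2 a (not_le.1 ham)] at ha
      have := he2 ha
      omega
  have k1 : A X u y = A X w y := by
    refine S.actA hus hut hst hy hu hw (fun n hn => (hw1 n hn).symm) ?_ ?_
    · intro n hn n' h
      rw [hw2 n hn] at h
      exact (he1 (2 * n)).1 ⟨n', h.symm⟩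
    · refine hinf.mono ?_
      rintro _ ⟨n, rfl⟩ h
      rcases h with h | h
      · exact (he1 (2 * n + 1)).1 h
      · exact hnw n h
  have k2 : A X u' y = A X w y := by
    refine S.actA hus hut hst hy hu' hw (fun n hn => ?_) ?_ ?_
    · rw [hw1 n hn, huu n hn]
    · intro n hn n' h
      rw [hw2 n hn] at h
      exact (he1 (2 * n)).2 ⟨n', h.symm⟩
    · refine hinf.mono ?_
      rintro _ ⟨n, rfl⟩ h
      rcases h with h | h
      · exact (he1 (2 * n + 1)).2 h
      · exact hnw n h
  rw [k1, k2]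

/-- coinfinite injections that agree on a finite set act in the same way on a point. -/
lemma stepTwo (S : Setup C D X) (y : ℕ) : ∃ m : ℕ, ∀ u u' : ℕ → ℕ, Coinf u → Coinf u' →
    (∀ n ≤ m, u n = u' n) → A X u y = A X u' y := by
  obtain ⟨m, us, ut, hus, hut, hst, hy⟩ := S.exists_pair y
  refine ⟨m, fun u u' hu hu' huu => ?_⟩
  obtain ⟨E, hEZ, hE, hZE, hZE'⟩ := exists_sparse hu.2 hu'.2
  obtain ⟨g, hg2, hg1⟩ := exists_emb hE
  let w : ℕ → ℕ := fun n => if n ≤ m then u n else g n
  have hw1 : ∀ n ≤ m, w n = u n := fun n hn => if_pos hn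
  have hw2 : ∀ n, m < n → w n = g n := fun n hn => if_neg (not_le.2 hn)
  have hw : Function.Injective w := by
    intro a b h
    by_cases ha : a ≤ m <;> by_cases hb : b ≤ m
    · rw [hw1 a ha, hw1 b hb] at h
      exact hu.1 h
    · rw [hw1 a ha, hw2 b (not_le.1 hb)] at h
      exact absurd ⟨a, h⟩ (hEZ (hg1 b))
    · rw [hw1 b hb, hw2 a (not_le.1 ha)] at h
      exact absurd ⟨b, h.symm⟩ (hEZ (hg1 a))
    · rw [hw2 a (not_le.1 ha), hw2 b (not_le.1 hb)] at h
      exact hg2 h
  have k1 : A X u y = A X w y := by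
    refine S.stepOne hus hut hst hy hu.1 hw (fun n hn => (hw1 n hn).symm) (hZE.mono ?_)
    rintro x ⟨hx1, hx2⟩
    refine ⟨hx1, ?_⟩
    rintro ⟨a, ha⟩
    by_cases ham : a ≤ m
    · rw [hw1 a ham] at ha
      exact hx1 ⟨a, ha⟩
    · rw [hw2 a (not_le.1 ham)] at ha
      exact hx2 (ha ▸ hg1 a)
  have k2 : A X u' y = A X w y := by
    refine S.stepOne hus hut hst hy hu'.1 hw (fun n hn => ?_) (hZE'.mono ?_)
    · rw [hw1 n hn, huu n hn]
    · rintro x ⟨hx1, hx2⟩
      refine ⟨hx1, ?_⟩
      rintro ⟨a, ha⟩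
      by_cases ham : a ≤ m
      · rw [hw1 a ham, huu a ham] at ha
        exact hx1 ⟨a, ha⟩
      · rw [hw2 a (not_le.1 ham)] at ha
        exact hx2 (ha ▸ hg1 a)
  rw [k1, k2]

lemma swap_le {a b n K : ℕ} (ha : a ≤ K) (hb : b ≤ K) (hn : n ≤ K) : Equiv.swap a b n ≤ K := by
  rw [Equiv.swap_apply_def]
  split_ifs <;> assumption

/-- the standard injections act as the identity on a point, from some index on. -/
lemma stepThree (S : Setup C D X) (y : ℕ) : ∃ m : ℕ, (∀ u u' : ℕ → ℕ, Coinf u → Coinf u' →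
    (∀ n ≤ m, u n = u' n) → A X u y = A X u' y) ∧ A X (ek m) y = y := by
  choose M hM using S.stepTwo
  let p : ℕ → ℕ := fun z => A X (ek (M z)) z
  have hp : ∀ z k, M z ≤ k → A X (ek k) z = p z := fun z k hk =>
    hM z _ _ (ek_coinf k) (ek_coinf (M z)) fun n hn => by
      rw [ek_of_le (hn.trans hk), ek_of_le hn]
  have hpD : un p ∈ D.ops 0 := by
    refine closed_approx (S.closedD 0) _ fun T => ?_
    refine ⟨un (A X (ek (T.sup fun x => M (x 0)))), S.A_mem (S.inj_mem (ek_coinf _).1), ?_⟩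
    intro t ht
    exact hp (t 0) _ (Finset.le_sup (f := fun x : Fin 1 → ℕ => M (x 0)) ht)
  obtain ⟨u, hu, hup⟩ := S.A_surj hpD
  have hcomm : ∀ a b : ℕ, u ∘ (Equiv.swap a b) = (Equiv.swap a b) ∘ u := by
    intro a b
    refine S.A_inj (S.comp_mem hu (S.perm_mem _)) (S.comp_mem (S.perm_mem _) hu) fun z => ?_
    rw [S.A_comp hu (S.perm_mem _), S.A_comp (S.perm_mem _) hu, hup]
    let z' := A X (Equiv.swap a b) z
    let K := max (max (M z') (M z)) (max a b)
    have h1 : M z' ≤ K := (le_max_left _ _).trans (le_max_left _ _)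
    have h2 : M z ≤ K := (le_max_right _ _).trans (le_max_left _ _)
    have h3 : a ≤ K := (le_max_left _ _).trans (le_max_right _ _)
    have h4 : b ≤ K := (le_max_right _ _).trans (le_max_right _ _)
    rw [← hp z' K h1, ← hp z K h2, ← S.A_comp (S.perm_mem _) (S.inj_mem (ek_coinf K).1),
      ← S.A_comp (S.inj_mem (ek_coinf K).1) (S.perm_mem _)]
    refine hM z _ _ ((ek_coinf K).comp_right (Equiv.injective _))
      (Coinf.comp_left (Equiv.injective _) (ek_coinf K)) fun n hn => ?_
    show ek K (Equiv.swap a b n) = Equiv.swap a b (ek K n)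
    rw [ek_of_le (hn.trans h2), ek_of_le (swap_le h3 h4 (hn.trans h2))]
  have huid : u = id := by
    funext x
    by_contra hne
    have hne' : u x ≠ x := hne
    obtain ⟨z, hz⟩ : ∃ z, z ∉ ({x, u x} : Finset ℕ) := Infinite.exists_notMem_finset _
    simp only [Finset.mem_insert, Finset.mem_singleton, not_or] at hz
    have h := congrFun (hcomm (u x) z) x
    simp only [Function.comp_apply] at h
    rw [Equiv.swap_apply_of_ne_of_ne hne'.symm (Ne.symm hz.1), Equiv.swap_apply_left] at h
    exact hz.2 h.symm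
  refine ⟨M y, hM y, ?_⟩
  show p y = y
  rw [← hup, huid, S.A_id]

/-- `G` supports the point `y`. -/
def Sup (X : ∀ n, Op n → Op n) (G : Finset ℕ) (y : ℕ) : Prop :=
  ∀ v v' : ℕ → ℕ, Function.Injective v → Function.Injective v' → (∀ n ∈ G, v n = v' n) →
    A X v y = A X v' y

lemma exists_sup (S : Setup C D X) (y : ℕ) : ∃ G : Finset ℕ, Sup X G y := by
  obtain ⟨m, hm, hy⟩ := S.stepThree y
  refine ⟨Finset.range (m + 1), fun v v' hv hv' h => ?_⟩
  have he := S.inj_mem (ek_coinf m).1
  have k1 : A X v y = A X (v ∘ ek m) y := by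
    rw [S.A_comp (S.inj_mem hv) he, hy]
  have k2 : A X v' y = A X (v' ∘ ek m) y := by
    rw [S.A_comp (S.inj_mem hv') he, hy]
  rw [k1, k2]
  refine hm _ _ (Coinf.comp_left hv (ek_coinf m)) (Coinf.comp_left hv' (ek_coinf m)) ?_
  intro n hn
  simp only [Function.comp_apply]
  rw [ek_of_le hn]
  exact h n (Finset.mem_range.2 (by omega))

/-- a minimal support -/
def MinSup (X : ∀ n, Op n → Op n) (G : Finset ℕ) (y : ℕ) : Prop :=
  Sup X G y ∧ ∀ G' : Finset ℕ, Sup X G' y → G.card ≤ G'.card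

lemma exists_minSup (S : Setup C D X) (y : ℕ) : ∃ G : Finset ℕ, MinSup X G y := by
  classical
  have hex : ∃ k, ∃ G : Finset ℕ, Sup X G y ∧ G.card = k := by
    obtain ⟨G, hG⟩ := S.exists_sup y
    exact ⟨_, G, hG, rfl⟩
  obtain ⟨G, hG, hc⟩ := Nat.find_spec hex
  refine ⟨G, hG, fun G' hG' => ?_⟩
  rw [hc]
  exact Nat.find_min' hex ⟨G', hG', rfl⟩

/-- a minimal support is contained in every coinfinite set whose pointwise stabiliser fixes the
point. -/
lemma minSup_sub (S : Setup C D X) {G : Finset ℕ} {y : ℕ} (hG : MinSup X G y) {B : Set ℕ}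
    (hB : Bᶜ.Infinite) (hfix : ∀ σ : Equiv.Perm ℕ, (∀ a ∈ B, σ a = a) → A X σ y = y) :
    ∀ x ∈ G, x ∈ B := by
  classical
  intro x hx
  by_contra hxB
  obtain ⟨x', hx'B, hx'G⟩ : ∃ x' ∈ Bᶜ, x' ∉ G := hB.exists_notMem_finset G
  have hne : x ≠ x' := fun h => hx'G (h ▸ hx)
  have hmove : ∀ v : ℕ → ℕ, Function.Injective v → ∀ z, (∀ n ∈ G.erase x, v n ≠ z) →
      ∃ w : ℕ → ℕ, Function.Injective w ∧ (∀ n ∈ G.erase x, w n = v n) ∧ w x = z ∧
        A X v y = A X w y := by
    intro v hv z hz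
    by_cases hvx : v x = z
    · exact ⟨v, hv, fun _ _ => rfl, hvx, rfl⟩
    · let q : ℕ → ℕ := fun n => if n = x' then z else v n
      have hq1 : q x' = z := if_pos rfl
      have hq2 : ∀ n, n ≠ x' → q n = v n := fun n hn => if_neg hn
      have hGx' : ∀ n ∈ G, n ≠ x' := fun n hn h => hx'G (h ▸ hn)
      have hvz : ∀ n ∈ G, v n ≠ z := by
        intro n hn
        by_cases hnx : n = x
        · rw [hnx]
          exact hvx
        · exact hz n (Finset.mem_erase.2 ⟨hnx, hn⟩)
      have hqi : Set.InjOn q ((insert x' G : Finset ℕ) : Set ℕ) := by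
        intro a ha b hb h
        rw [Finset.mem_coe, Finset.mem_insert] at ha hb
        rcases ha with rfl | ha <;> rcases hb with rfl | hb
        · rfl
        · rw [hq1, hq2 b (hGx' b hb)] at h
          exact absurd h.symm (hvz b hb)
        · rw [hq1, hq2 a (hGx' a ha)] at h
          exact absurd h (hvz a ha)
        · rw [hq2 a (hGx' a ha), hq2 b (hGx' b hb)] at h
          exact hv h
      obtain ⟨σ, hσ⟩ := perm_ext (insert x' G) q hqi
      have hσG : ∀ n ∈ G, σ n = v n := fun n hn => by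
        rw [hσ n (Finset.mem_insert_of_mem hn), hq2 n (hGx' n hn)]
      have hσx' : σ x' = z := by
        rw [hσ x' (Finset.mem_insert_self _ _), hq1]
      have hsw : A X (Equiv.swap x x') y = y := by
        refine hfix _ fun a ha => Equiv.swap_apply_of_ne_of_ne ?_ ?_
        · rintro rfl
          exact hxB ha
        · rintro rfl
          exact hx'B ha
      refine ⟨σ ∘ Equiv.swap x x', σ.injective.comp (Equiv.injective _), ?_, ?_, ?_⟩
      · intro n hn
        rw [Finset.mem_erase] at hn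
        rw [Function.comp_apply, Equiv.swap_apply_of_ne_of_ne hn.1 (hGx' n hn.2), hσG n hn.2]
      · rw [Function.comp_apply, Equiv.swap_apply_left, hσx']
      · rw [S.A_comp (S.perm_mem _) (S.perm_mem _), hsw]
        exact hG.1 _ _ hv σ.injective fun n hn => (hσG n hn).symm
  have hsup : Sup X (G.erase x) y := by
    intro v v' hv hv' h
    obtain ⟨w, hw, hwG, hwx, hwA⟩ := hmove v hv (v' x) (by
      intro n hn
      rw [h n hn]
      intro h'
      exact (Finset.mem_erase.1 hn).1 (hv' h'))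
    rw [hwA]
    refine hG.1 _ _ hw hv' fun n hn => ?_
    by_cases hnx : n = x
    · rw [hnx, hwx]
    · have hne' : n ∈ G.erase x := Finset.mem_erase.2 ⟨hnx, hn⟩
      rw [hwG n hne', h n hne']
  have h1 := hG.2 _ hsup
  rw [Finset.card_erase_of_mem hx] at h1
  have h2 : 0 < G.card := Finset.card_pos.2 ⟨x, hx⟩
  omega

/-- the image version of `minSup_sub`. -/
lemma minSup_sub_image (S : Setup C D X) {G : Finset ℕ} {y : ℕ} (hG : MinSup X G y)
    {α : ℕ → ℕ} (hα : Function.Injective α) {B : Set ℕ} (hB : Bᶜ.Infinite)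
    (hfix : ∀ σ : Equiv.Perm ℕ, (∀ a ∈ B, σ a = a) → A X σ (A X α y) = A X α y) :
    ∀ x ∈ G, α x ∈ B := by
  obtain ⟨τ, hτ⟩ := perm_ext G α hα.injOn
  have hατ : A X α y = A X τ y := hG.1 _ _ hα τ.injective fun n hn => (hτ n hn).symm
  rw [hατ] at hfix
  have key : ∀ x ∈ G, x ∈ τ ⁻¹' B := by
    refine S.minSup_sub hG ?_ ?_
    · rw [← Set.preimage_compl]
      refine Set.Infinite.preimage hB ?_
      intro x _
      exact τ.surjective x
    · intro σ hσ
      have h1 := hfix ((τ.symm.trans σ).trans τ) (by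
        intro a ha
        simp only [Equiv.trans_apply]
        rw [hσ (τ.symm a) (by rw [Set.mem_preimage, Equiv.apply_symm_apply]; exact ha),
          Equiv.apply_symm_apply])
      have e1 : (((τ.symm.trans σ).trans τ : Equiv.Perm ℕ) : ℕ → ℕ) ∘ (τ : ℕ → ℕ) =
          (τ : ℕ → ℕ) ∘ (σ : ℕ → ℕ) := by
        funext z
        simp
      rw [← S.A_comp (S.perm_mem _) (S.perm_mem _), e1,
        S.A_comp (S.perm_mem _) (S.perm_mem _)] at h1
      have h2 := congrArg (A X (τ.symm : Equiv.Perm ℕ)) h1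
      have e2 : ∀ z, A X (τ.symm : Equiv.Perm ℕ) (A X τ z) = z := by
        intro z
        rw [← S.A_comp (S.perm_mem _) (S.perm_mem _)]
        have : ((τ.symm : Equiv.Perm ℕ) : ℕ → ℕ) ∘ (τ : ℕ → ℕ) = id := by
          funext z
          simp
        rw [this, S.A_id]
      rwa [e2, e2] at h2
  intro x hx
  have := key x hx
  rw [Set.mem_preimage, hτ x hx] at this
  exact this

/-- an injection that is the identity on a support fixes the point. -/
lemma A_fix (S : Setup C D X) {G : Finset ℕ} {y : ℕ} (hG : Sup X G y) {v : ℕ → ℕ}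
    (hv : Function.Injective v) (h : ∀ n ∈ G, v n = n) : A X v y = y := by
  have := hG v id hv Function.injective_id h
  rw [this, S.A_id]

/-- injections act injectively. -/
lemma A_injective (S : Setup C D X) {v : ℕ → ℕ} (hv : Function.Injective v) :
    Function.Injective (A X v) := by
  classical
  intro y z h
  obtain ⟨G, hG⟩ := S.exists_sup y
  obtain ⟨H, hH⟩ := S.exists_sup z
  obtain ⟨σ, hσ⟩ := perm_ext (G ∪ H) v hv.injOn
  have h1 : A X v y = A X σ y := hG _ _ hv σ.injective fun n hn =>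
    (hσ n (Finset.mem_union_left _ hn)).symm
  have h2 : A X v z = A X σ z := hH _ _ hv σ.injective fun n hn =>
    (hσ n (Finset.mem_union_right _ hn)).symm
  rw [h1, h2] at h
  have e2 : ∀ z, A X (σ.symm : Equiv.Perm ℕ) (A X σ z) = z := by
    intro z
    rw [← S.A_comp (S.perm_mem _) (S.perm_mem _)]
    have : ((σ.symm : Equiv.Perm ℕ) : ℕ → ℕ) ∘ (σ : ℕ → ℕ) = id := by
      funext z
      simp
    rw [this, S.A_id]
  have h3 := congrArg (A X (σ.symm : Equiv.Perm ℕ)) h
  rwa [e2, e2] at h3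

end Setup

end Pool.Agent.R603.AH
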