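import Mathlib
import Pool.Agent.R603.AH.Supp
import Pool.Agent.R603.AH.Ram

set_option autoImplicit false
set_option linter.unusedVariables false

open Filter

namespace Pool.Agent.R603.AH

/-- along an ultrafilter a function with values in a finite set is eventually constant. -/
lemma eventually_const {ι : Type*} (W : Ultrafilter ι) (F : ι → ℕ) (G : Finset ℕ)
    (h : ∀ᶠ i in (W : Filter ι), F i ∈ G) : ∃ b, ∀ᶠ i in (W : Filter ι), F i = b := by
  by_contra hcon
  push Not at hcon
  have h1 : ∀ b, ∀ᶠ i in (W : Filter ι), F i ≠ b := fun b => hcon b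
  have h2 : ∀ᶠ i in (W : Filter ι), ∀ b ∈ G, F i ≠ b := by
    rw [Filter.eventually_all_finset]
    exact fun b _ => h1 b
  obtain ⟨i, hi1, hi2⟩ := (h.and h2).exists
  exact hi2 _ hi1 rfl

lemma eventually_const_finite {ι K : Type*} [Finite K] (W : Ultrafilter ι) (F : ι → K) :
    ∃ b, ∀ᶠ i in (W : Filter ι), F i = b := by
  by_contra hcon
  push Not at hcon
  have h1 : ∀ b, ∀ᶠ i in (W : Filter ι), F i ≠ b := fun b => hcon b
  obtain ⟨i, hi⟩ := (Filter.eventually_all.2 h1).exists
  exact hi _ rfl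

/-- sections -/
lemma exists_section {u : ℕ → ℕ} (hr : (Set.range u).Infinite) (G : Finset ℕ)
    (hG : Set.InjOn u G) : ∃ γ : ℕ → ℕ, Function.Injective γ ∧ (∀ n ∈ G, γ n = n) ∧
      Function.Injective (u ∘ γ) := by
  classical
  have hR : (Set.range u \ (G.image u : Finset ℕ)).Infinite :=
    hr.sdiff (Finset.finite_toSet _)
  obtain ⟨e, he, heR⟩ := exists_emb hR
  have hpre : ∀ n, ∃ x, u x = e n := fun n => (heR n).1
  choose s hs using hpre
  let γ : ℕ → ℕ := fun n => if n ∈ G then n else s n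
  have hγ1 : ∀ n ∈ G, γ n = n := fun n hn => if_pos hn
  have hγ2 : ∀ n, n ∉ G → γ n = s n := fun n hn => if_neg hn
  have huγ : Function.Injective (u ∘ γ) := by
    intro a b h
    simp only [Function.comp_apply] at h
    by_cases ha : a ∈ G <;> by_cases hb : b ∈ G
    · rw [hγ1 a ha, hγ1 b hb] at h
      exact hG ha hb h
    · rw [hγ1 a ha, hγ2 b hb, hs] at h
      exact absurd (by rw [← h]; exact Finset.mem_coe.2 (Finset.mem_image_of_mem _ ha)) (heR b).2
    · rw [hγ1 b hb, hγ2 a ha, hs] at h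
      exact absurd (by rw [h]; exact Finset.mem_coe.2 (Finset.mem_image_of_mem _ hb)) (heR a).2
    · rw [hγ2 a ha, hγ2 b hb, hs, hs] at h
      exact he h
  exact ⟨γ, huγ.of_comp, hγ1, huγ⟩

/-- factoring through an operation with the same kernel. -/
lemma exists_factor {T : Type*} (p q : T → ℕ) (h : ∀ t t', p t = p t' ↔ q t = q t')
    (hp : ∀ t, Even (p t)) : ∃ α : ℕ → ℕ, Function.Injective α ∧ ∀ t, α (q t) = p t := by
  classical
  let α : ℕ → ℕ := fun z => if hz : ∃ t, q t = z then p hz.choose else 2 * z + 1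
  have h1 : ∀ t, α (q t) = p t := by
    intro t
    have hex : ∃ t', q t' = q t := ⟨t, rfl⟩
    show (if hz : ∃ t', q t' = q t then p hz.choose else 2 * q t + 1) = p t
    rw [dif_pos hex]
    exact (h _ _).2 hex.choose_spec
  have h2 : ∀ z, (¬ ∃ t, q t = z) → α z = 2 * z + 1 := fun z hz => dif_neg hz
  refine ⟨α, ?_, h1⟩
  intro z z' hzz
  by_cases hz : ∃ t, q t = z <;> by_cases hz' : ∃ t, q t = z'
  · obtain ⟨t, rfl⟩ := hz
    obtain ⟨t', rfl⟩ := hz'
    rw [h1, h1] at hzz
    exact (h _ _).1 hzz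
  · obtain ⟨t, rfl⟩ := hz
    rw [h1, h2 z' hz'] at hzz
    have := hp t
    rw [hzz] at this
    exact absurd this (by simp)
  · obtain ⟨t', rfl⟩ := hz'
    rw [h1, h2 z hz] at hzz
    have := hp t'
    rw [← hzz] at this
    exact absurd this (by simp)
  · rw [h2 z hz, h2 z' hz'] at hzz
    omega

namespace Setup

variable {C D : Clone} {X : ∀ n, Op n → Op n}

/-- if one constant function belongs to the clone then all do. -/
lemma const_all (S : Setup C D X) {a : ℕ} (ha : (fun _ => a) ∈ U C) (b : ℕ) :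
    (fun _ => b : ℕ → ℕ) ∈ U C := by
  have h := S.comp_mem (S.perm_mem (Equiv.swap a b)) ha
  have e : (Equiv.swap a b : ℕ → ℕ) ∘ (fun _ : ℕ => a) = fun _ => b := by
    funext z
    simp
  rwa [e] at h

/-- without constants every unary member has infinite range. -/
lemma range_infinite (S : Setup C D X) (hc : ¬ ∃ a, (fun _ => a : ℕ → ℕ) ∈ U C) {u : ℕ → ℕ}
    (hu : u ∈ U C) : (Set.range u).Infinite := by
  intro hfin
  have hex : ∃ a, (u ⁻¹' {a}).Infinite := by
    by_contra hcon
    push Not at hcon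
    have h1 : (u ⁻¹' (Set.range u)).Finite :=
      hfin.preimage' fun b _ => hcon b
    rw [Set.preimage_range] at h1
    exact Set.infinite_univ h1
  obtain ⟨a, ha⟩ := hex
  obtain ⟨e, he, hea⟩ := exists_emb ha
  apply hc
  refine ⟨a, ?_⟩
  have h := S.comp_mem hu (S.inj_mem he)
  have e2 : u ∘ e = fun _ => a := funext hea
  rwa [e2] at h

/-- kernel limits along ultrafilters. -/
lemma exists_limit (S : Setup C D X) {n : ℕ} {ι : Type*} (W : Ultrafilter ι) (F : ι → Op n)
    (hF : ∀ i, F i ∈ C.ops n) : ∃ g ∈ C.ops n,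
      (∀ t t', g t = g t' ↔ ∀ᶠ i in (W : Filter ι), F i t = F i t') ∧ ∀ t, Even (g t) := by
  classical
  let s : Setoid (Fin (n + 1) → ℕ) :=
    { r := fun t t' => ∀ᶠ i in (W : Filter ι), F i t = F i t'
      iseqv :=
        ⟨fun t => Eventually.of_forall fun _ => rfl, fun h => h.mono fun _ hi => hi.symm,
          fun h h' => (h.and h').mono fun _ hi => hi.1.trans hi.2⟩ }
  obtain ⟨j, hj⟩ := exists_injective_nat (Quotient s)
  let g : Op n := fun t => 2 * j (Quotient.mk s t)
  have hg : ∀ t t', g t = g t' ↔ ∀ᶠ i in (W : Filter ι), F i t = F i t' := by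
    intro t t'
    constructor
    · intro h
      have h1 : j (Quotient.mk s t) = j (Quotient.mk s t') := by
        have : 2 * j (Quotient.mk s t) = 2 * j (Quotient.mk s t') := h
        omega
      exact Quotient.exact (hj h1)
    · intro h
      show 2 * j (Quotient.mk s t) = 2 * j (Quotient.mk s t')
      rw [Quotient.sound (s := s) h]
  refine ⟨g, ?_, hg, fun t => ⟨j (Quotient.mk s t), by show 2 * _ = _; omega⟩⟩
  refine closed_approx (S.closedC n) g fun T => ?_
  have hev : ∀ t t', ∀ᶠ i in (W : Filter ι), (F i t = F i t' ↔ g t = g t') := by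
    intro t t'
    by_cases h : g t = g t'
    · exact ((hg t t').1 h).mono fun i hi => iff_of_true hi h
    · exact (Ultrafilter.eventually_not.2 fun h' => h ((hg t t').2 h')).mono
        fun i hi => iff_of_false hi h
  have hev2 : ∀ᶠ i in (W : Filter ι), ∀ t ∈ T, ∀ t' ∈ T, (F i t = F i t' ↔ g t = g t') := by
    rw [Filter.eventually_all_finset]
    intro t _
    rw [Filter.eventually_all_finset]
    intro t' _
    exact hev t t'
  obtain ⟨i, hi⟩ := hev2.exists
  let v : ℕ → ℕ := fun z => if hz : ∃ t ∈ T, F i t = z then g hz.choose else 0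
  have hv : ∀ t ∈ T, v (F i t) = g t := by
    intro t ht
    have hex : ∃ t' ∈ T, F i t' = F i t := ⟨t, ht, rfl⟩
    show (if hz : ∃ t' ∈ T, F i t' = F i t then g hz.choose else 0) = g t
    rw [dif_pos hex]
    exact (hi _ hex.choose_spec.1 _ ht).1 hex.choose_spec.2
  obtain ⟨σ, hσ⟩ := perm_ext (T.image (F i)) v (by
    intro a ha b hb h
    rw [Finset.mem_coe, Finset.mem_image] at ha hb
    obtain ⟨t, ht, rfl⟩ := ha
    obtain ⟨t', ht', rfl⟩ := hb
    rw [hv t ht, hv t' ht'] at h
    exact (hi t ht t' ht').2 h)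
  refine ⟨fun t => σ (F i t), S.post_mem (hF i) (S.perm_mem σ), fun t ht => ?_⟩
  show σ (F i t) = g t
  rw [hσ _ (Finset.mem_image_of_mem _ ht), hv t ht]

/-- the graph is closed: unary case. -/
lemma graph_one (S : Setup C D X) {ι : Type*} (W : Ultrafilter ι) (F : ι → ℕ → ℕ)
    (hF : ∀ i, F i ∈ U C) {u v : ℕ → ℕ} (hu : u ∈ U C) (hv : v ∈ U C)
    (hlim : ∀ x, ∀ᶠ i in (W : Filter ι), F i x = u x)
    (hlimA : ∀ y, ∀ᶠ i in (W : Filter ι), A X (F i) y = A X v y) (x : ℕ) : u x = v x := by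
  classical
  by_cases hc : ∃ a, (fun _ => a : ℕ → ℕ) ∈ U C
  · obtain ⟨a, ha⟩ := hc
    have hcc := S.const_all ha
    have h1 : (fun _ => u x : ℕ → ℕ) = fun _ => v x := by
      refine S.A_inj (hcc _) (hcc _) fun y => ?_
      obtain ⟨i, hi1, hi2⟩ := ((hlim x).and (hlimA (A X (fun _ => x) y))).exists
      rw [← S.A_comp (hF i) (hcc x), ← S.A_comp hv (hcc x)] at hi2
      have e1 : (F i) ∘ (fun _ : ℕ => x) = fun _ => u x := funext fun _ => hi1
      rw [e1] at hi2
      exact hi2
    exact congrFun h1 0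
  · obtain ⟨β1, hβ1, hβ1x, huβ1⟩ := exists_section (S.range_infinite hc hu) {x} (by simp)
    have hv1 := S.comp_mem hv (S.inj_mem hβ1)
    obtain ⟨β2, hβ2, hβ2x, hvβ2⟩ := exists_section (S.range_infinite hc hv1) {x} (by simp)
    let β := β1 ∘ β2
    have hβ : Function.Injective β := hβ1.comp hβ2
    have hβx : β x = x := by
      show β1 (β2 x) = x
      rw [hβ2x x (by simp), hβ1x x (by simp)]
    have huβ : Function.Injective (u ∘ β) := huβ1.comp hβ2
    have hvβ : Function.Injective (v ∘ β) := hvβ2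
    have h1 : u ∘ β = v ∘ β := by
      refine S.A_inj (S.comp_mem hu (S.inj_mem hβ)) (S.comp_mem hv (S.inj_mem hβ)) fun y => ?_
      obtain ⟨G, hG⟩ := S.exists_sup y
      have hev : ∀ᶠ i in (W : Filter ι), ∀ n ∈ G, F i (β n) = u (β n) := by
        rw [Filter.eventually_all_finset]
        exact fun n _ => hlim (β n)
      obtain ⟨i, hi1, hi2⟩ := (hev.and (hlimA (A X β y))).exists
      have hFβ := S.comp_mem (hF i) (S.inj_mem hβ)
      obtain ⟨γ, hγ, hγG, hFγ⟩ := exists_section (S.range_infinite hc hFβ) G (by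
        intro a ha b hb h
        simp only [Function.comp_apply] at h
        rw [hi1 a ha, hi1 b hb] at h
        exact huβ h)
      have k1 : A X (u ∘ β) y = A X ((F i ∘ β) ∘ γ) y := by
        refine hG _ _ huβ hFγ fun n hn => ?_
        simp only [Function.comp_apply]
        rw [hγG n hn, hi1 n hn]
      rw [k1, S.A_comp hFβ (S.inj_mem hγ), S.A_fix hG hγ hγG, S.A_comp (hF i) (S.inj_mem hβ), hi2,
        ← S.A_comp hv (S.inj_mem hβ)]
    have h2 := congrFun h1 x
    simp only [Function.comp_apply, hβx] at h2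
    exact h2

/-- the graph is closed. -/
lemma graph_all (S : Setup C D X) {n : ℕ} {ι : Type*} (W : Ultrafilter ι) (F : ι → Op n)
    (hF : ∀ i, F i ∈ C.ops n) {f g : Op n} (hf : f ∈ C.ops n) (hg : g ∈ C.ops n)
    (hlim : ∀ t, ∀ᶠ i in (W : Filter ι), F i t = f t)
    (hlimX : ∀ y, ∀ᶠ i in (W : Filter ι), X n (F i) y = X n g y) : f = g := by
  funext t
  let v : Fin (n + 1) → ℕ → ℕ := fun j => Equiv.swap 0 (t j)
  have hv : ∀ j, v j ∈ U C := fun j => S.perm_mem _
  have hv0 : (fun j => v j 0) = t := funext fun j => Equiv.swap_apply_left _ _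
  have h := S.graph_one W (fun i a => F i (fun j => v j a)) (fun i => S.diag_mem (hF i) hv)
    (S.diag_mem hf hv) (S.diag_mem hg hv) (fun x => hlim _) (fun y => by
      refine (hlimX (fun j => A X (v j) y)).mono fun i hi => ?_
      rw [S.A_diag (hF i) hv, S.A_diag hg hv, hi]) 0
  rwa [hv0] at h

/-- boundedness for the inverse: unary case. -/
lemma inv_one (S : Setup C D X) (hc : ¬ ∃ a, (fun _ => a : ℕ → ℕ) ∈ U C) {G : Finset ℕ} {y e : ℕ}
    (hG : MinSup X G y) (he : e ∈ G) {ι : Type*} (W : Ultrafilter ι) (F : ι → ℕ → ℕ)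
    (hF : ∀ i, F i ∈ U C) (hA : ∀ y, ∃ z, ∀ᶠ i in (W : Filter ι), A X (F i) y = z) :
    ∃ b, ∀ᶠ i in (W : Filter ι), F i e = b := by
  classical
  obtain ⟨g, hg, hgk, -⟩ := S.exists_limit W (fun i => un (F i)) hF
  have hg' : dn g ∈ U C := by
    show un (dn g) ∈ C.ops 0
    rwa [un_dn]
  obtain ⟨β, hβ, hβe, hgβ⟩ := exists_section (S.range_infinite hc hg') {e} (by simp)
  have hpair : ∀ a b, a ≠ b → ∀ᶠ i in (W : Filter ι), F i (β a) ≠ F i (β b) := by
    intro a b hab
    apply Ultrafilter.eventually_not.2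
    intro h
    apply hab
    apply hgβ
    exact (hgk (fun _ => β a) (fun _ => β b)).2 h
  have hinj : ∀ᶠ i in (W : Filter ι), ∀ a ∈ G, ∀ b ∈ G, a ≠ b → F i (β a) ≠ F i (β b) := by
    rw [Filter.eventually_all_finset]
    intro a _
    rw [Filter.eventually_all_finset]
    intro b _
    by_cases hab : a = b
    · exact Eventually.of_forall fun i h => absurd hab h
    · exact (hpair a b hab).mono fun i hi _ => hi
  obtain ⟨z, hz⟩ := hA (A X β y)
  obtain ⟨Gz, hGz⟩ := S.exists_sup z
  refine eventually_const W (fun i => F i e) Gz ?_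
  refine (hinj.and hz).mono ?_
  rintro i ⟨hi1, hi2⟩
  have hFβ := S.comp_mem (hF i) (S.inj_mem hβ)
  obtain ⟨γ, hγ, hγG, hFγ⟩ := exists_section (S.range_infinite hc hFβ) G (by
    intro a ha b hb h
    by_contra hab
    exact hi1 a ha b hb hab h)
  have hAα : A X ((F i ∘ β) ∘ γ) y = z := by
    rw [S.A_comp hFβ (S.inj_mem hγ), S.A_fix hG.1 hγ hγG, S.A_comp (hF i) (S.inj_mem hβ), hi2]
  have h1 := S.minSup_sub_image hG hFγ (B := (Gz : Set ℕ)) (Set.Finite.infinite_compl
    (Finset.finite_toSet Gz)) (by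
    intro σ hσ
    rw [hAα]
    exact S.A_fix hGz σ.injective fun n hn => hσ n (Finset.mem_coe.2 hn)) e he
  simp only [Function.comp_apply] at h1
  rw [hγG e he, hβe e (by simp)] at h1
  exact Finset.mem_coe.1 h1

lemma inv_unary (S : Setup C D X) {ι : Type*} (W : Ultrafilter ι) (F : ι → ℕ → ℕ)
    (hF : ∀ i, F i ∈ U C) (hA : ∀ y, ∃ z, ∀ᶠ i in (W : Filter ι), A X (F i) y = z) (x : ℕ) :
    ∃ b, ∀ᶠ i in (W : Filter ι), F i x = b := by
  classical
  by_cases hc : ∃ a, (fun _ => a : ℕ → ℕ) ∈ U C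
  · obtain ⟨a, ha⟩ := hc
    have hcc := S.const_all ha
    obtain ⟨y, hy⟩ : ∃ y, A X (fun _ => 0) y ≠ A X (fun _ => 1) y := by
      by_contra hcon
      push Not at hcon
      have := congrFun (S.A_inj (hcc 0) (hcc 1) hcon) 0
      exact absurd this (by norm_num)
    have hne : ∀ a b, a ≠ b → A X (fun _ => a) y ≠ A X (fun _ => b) y := by
      intro a b hab h
      obtain ⟨τ, hτ⟩ := perm_ext {a, b} (fun z => if z = a then 0 else 1) (by
        intro z hz w hw hzw
        simp only [Finset.coe_insert, Finset.coe_singleton, Set.mem_insert_iff,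
          Set.mem_singleton_iff] at hz hw
        rcases hz with rfl | rfl <;> rcases hw with rfl | rfl
        · rfl
        · simp [Ne.symm hab] at hzw
        · simp [Ne.symm hab] at hzw
        · rfl)
      have h1 : τ a = 0 := by
        have := hτ a (by simp)
        simpa using this
      have h2 : τ b = 1 := by
        have := hτ b (by simp)
        rw [this]
        simp [Ne.symm hab]
      have h3 := congrArg (A X τ) h
      rw [← S.A_comp (S.perm_mem τ) (hcc a), ← S.A_comp (S.perm_mem τ) (hcc b)] at h3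
      have e1 : (τ : ℕ → ℕ) ∘ (fun _ : ℕ => a) = fun _ => 0 := funext fun _ => h1
      have e2 : (τ : ℕ → ℕ) ∘ (fun _ : ℕ => b) = fun _ => 1 := funext fun _ => h2
      rw [e1, e2] at h3
      exact hy h3
    obtain ⟨z, hz⟩ := hA (A X (fun _ => x) y)
    have hz' : ∀ᶠ i in (W : Filter ι), A X (fun _ => F i x) y = z := by
      refine hz.mono fun i hi => ?_
      rw [← S.A_comp (hF i) (hcc x)] at hi
      exact hi
    obtain ⟨i0, hi0⟩ := hz'.exists
    refine ⟨F i0 x, hz'.mono fun i hi => ?_⟩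
    by_contra hne'
    exact hne _ _ hne' (hi.trans hi0.symm)
  · obtain ⟨y, G, hG, e, he⟩ : ∃ y G, MinSup X G y ∧ ∃ e, e ∈ G := by
      by_contra hcon
      push Not at hcon
      have h1 : ∀ y, A X Nat.succ y = A X id y := by
        intro y
        obtain ⟨G, hG⟩ := S.exists_minSup y
        exact hG.1 _ _ Nat.succ_injective Function.injective_id
          fun n hn => absurd hn (hcon y G hG n)
      have h2 := congrFun (S.A_inj (S.inj_mem Nat.succ_injective) S.id_mem h1) 0
      exact absurd h2 (by simp)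
    have hτ := S.perm_mem (Equiv.swap e x)
    obtain ⟨b, hb⟩ := S.inv_one hc hG he W (fun i => F i ∘ Equiv.swap e x)
      (fun i => S.comp_mem (hF i) hτ) (fun y => by
        obtain ⟨z, hz⟩ := hA (A X (Equiv.swap e x) y)
        refine ⟨z, hz.mono fun i hi => ?_⟩
        rw [S.A_comp (hF i) hτ]
        exact hi)
    refine ⟨b, hb.mono fun i hi => ?_⟩
    simp only [Function.comp_apply, Equiv.swap_apply_left] at hi
    exact hi

lemma inv_bounded (S : Setup C D X) {n : ℕ} {ι : Type*} (W : Ultrafilter ι) (F : ι → Op n)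
    (hF : ∀ i, F i ∈ C.ops n) (hX : ∀ y, ∃ z, ∀ᶠ i in (W : Filter ι), X n (F i) y = z)
    (t : Fin (n + 1) → ℕ) : ∃ b, ∀ᶠ i in (W : Filter ι), F i t = b := by
  let v : Fin (n + 1) → ℕ → ℕ := fun j => Equiv.swap 0 (t j)
  have hv : ∀ j, v j ∈ U C := fun j => S.perm_mem _
  have hv0 : (fun j => v j 0) = t := funext fun j => Equiv.swap_apply_left _ _
  obtain ⟨b, hb⟩ := S.inv_unary W (fun i a => F i (fun j => v j a))
    (fun i => S.diag_mem (hF i) hv) (fun y => by
      obtain ⟨z, hz⟩ := hX (fun j => A X (v j) y)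
      refine ⟨z, hz.mono fun i hi => ?_⟩
      rw [S.A_diag (hF i) hv, hi]) 0
  refine ⟨b, hb.mono fun i hi => ?_⟩
  rwa [hv0] at hi

end Setup

end Pool.Agent.R603.AH
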