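import Mathlib
import Pool.Agent.R603.AH.Graph

set_option autoImplicit false
set_option linter.unusedVariables false

open Filter

namespace Pool.Agent.R603.AH

lemma evens_compl_infinite {B : Set ℕ} (hB : ∀ x ∈ B, Even x) : Bᶜ.Infinite := by
  have hinj : Function.Injective (fun j : ℕ => 2 * j + 1) := by
    intro a b h
    simp only at h
    omega
  refine (Set.infinite_range_of_injective hinj).mono ?_
  rintro _ ⟨j, rfl⟩ hx
  have := hB _ hx
  exact absurd this (by simp)

lemma bt_injective {m : ℕ} {h : ℕ → ℕ} (hh : Function.Injective h) (hm : ∀ z, m ≤ h z) :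
    Function.Injective (bt m h) := by
  intro a b hab
  unfold bt at hab
  split_ifs at hab with h1 h2 h2
  · exact hab
  · have := hm b
    omega
  · have := hm a
    omega
  · exact hh hab

/-- the first injection of the doubled index set. -/
def jP (m : ℕ) : ℕ → ℕ := bt m fun x => 2 * x

/-- the second injection. -/
def jQ (m : ℕ) : ℕ → ℕ := bt m fun x => 2 * x + 1

lemma jP_injective (m : ℕ) : Function.Injective (jP m) := by
  intro a b hab
  simp only [jP, bt] at hab
  split_ifs at hab <;> omega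

lemma jQ_injective (m : ℕ) : Function.Injective (jQ m) := by
  intro a b hab
  simp only [jQ, bt] at hab
  split_ifs at hab <;> omega

/-- the amalgamating injection. -/
def gam (m : ℕ) (h : ℕ → ℕ) : ℕ → ℕ := fun z => if z < m ∨ Even z then z else h (z / 2)

lemma gam_injective {m : ℕ} {h : ℕ → ℕ} (hh : Function.Injective h)
    (ho : ∀ z, Odd (h z) ∧ m ≤ h z) : Function.Injective (gam m h) := by
  intro a b hab
  unfold gam at hab
  split_ifs at hab with h1 h2 h2
  · exact hab
  · exfalso
    have h3 := ho (b / 2)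
    rw [← hab] at h3
    rcases h1 with h1 | h1
    · omega
    · exact (Nat.not_even_iff_odd.2 h3.1) h1
  · exfalso
    have h3 := ho (a / 2)
    rw [hab] at h3
    rcases h2 with h2 | h2
    · omega
    · exact (Nat.not_even_iff_odd.2 h3.1) h2
  · have h3 := hh hab
    push Not at h1 h2
    obtain ⟨a', ha'⟩ := Nat.not_even_iff_odd.1 h1.2
    obtain ⟨b', hb'⟩ := Nat.not_even_iff_odd.1 h2.2
    omega

lemma gam_jP (m : ℕ) (h : ℕ → ℕ) (x : ℕ) : gam m h (jP m x) = jP m x := by
  simp only [gam, jP, bt]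
  split_ifs with h1 h2 h2
  · rfl
  · exact absurd (Or.inl h1) h2
  · rfl
  · exact absurd (Or.inr (even_two_mul x)) h2

lemma gam_jQ (m : ℕ) (h : ℕ → ℕ) (x : ℕ) : gam m h (jQ m x) = bt m h x := by
  simp only [gam, jQ, bt]
  split_ifs with h1 h2 h2
  · rfl
  · exact absurd (Or.inl h1) h2
  · exfalso
    rcases h2 with h2 | h2
    · omega
    · exact absurd h2 (by simp)
  · congr 1
    omega

namespace Setup

variable {C D : Clone} {X : ∀ n, Op n → Op n}

lemma exists_bound (S : Setup C D X) (y : ℕ) : ∃ m : ℕ, ∀ v : ℕ → ℕ, Function.Injective v →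
    (∀ n < m, v n = n) → A X v y = y := by
  obtain ⟨G, hG⟩ := S.exists_sup y
  refine ⟨G.sup id + 1, fun v hv h => S.A_fix hG hv fun n hn => h n ?_⟩
  have := Finset.le_sup (f := id) hn
  exact Nat.lt_succ_of_le this

lemma exists_bound_all (S : Setup C D X) {n : ℕ} (y : Fin (n + 1) → ℕ) : ∃ m : ℕ,
    ∀ v : ℕ → ℕ, Function.Injective v → (∀ n < m, v n = n) → ∀ j, A X v (y j) = y j := by
  choose M hM using fun j => S.exists_bound (y j)
  refine ⟨Finset.univ.sup M, fun v hv h j => hM j v hv fun n hn => h n ?_⟩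
  exact lt_of_lt_of_le hn (Finset.le_sup (Finset.mem_univ j))

/-- a composition with an operation fixed by all permutations fixing the range. -/
lemma fix_of_range (S : Setup C D X) {n : ℕ} {c : Op n} (hc : c ∈ C.ops n)
    (y : Fin (n + 1) → ℕ) (σ : Equiv.Perm ℕ) (hσ : ∀ a ∈ Set.range c, σ a = a) :
    A X σ (X n c y) = X n c y := by
  rw [← S.X_post hc (S.perm_mem σ)]
  have : (fun t => σ (c t)) = c := funext fun t => hσ _ ⟨t, rfl⟩
  rw [this]

/-- boundedness. -/
theorem bounded (S : Setup C D X) {n : ℕ} {ι : Type*} (W : Ultrafilter ι) (F : ι → Op n)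
    (hF : ∀ i, F i ∈ C.ops n) (f : Op n) (hlim : ∀ t, ∀ᶠ i in (W : Filter ι), F i t = f t)
    (y : Fin (n + 1) → ℕ) : ∃ z, ∀ᶠ i in (W : Filter ι), X n (F i) y = z := by
  classical
  obtain ⟨m, hm⟩ := S.exists_bound_all y
  obtain ⟨K, hK, R, hR⟩ := ramsey_kernel n m
  have hdbl : Function.Injective (fun x : ℕ => 2 * x) := fun a b h => by
    simp only at h
    omega
  choose k h hinj hodd hker using fun i => hR (fun t => 2 * F i t)
  have hbtinj : ∀ i, Function.Injective (bt m (h i)) := fun i =>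
    bt_injective (hinj i) fun z => (hodd i z).2
  have hbtmem : ∀ i, bt m (h i) ∈ U C := fun i => S.inj_mem (hbtinj i)
  have hbtfix : ∀ i j, A X (bt m (h i)) (y j) = y j := fun i j =>
    hm _ (hbtinj i) (fun n hn => if_pos hn) j
  have h2F : ∀ i, (fun t => 2 * F i t) ∈ C.ops n := fun i => S.post_mem (hF i) (S.inj_mem hdbl)
  let Fh : ι → Op n := fun i t => 2 * F i (fun j => bt m (h i) (t j))
  have hFh : ∀ i, Fh i ∈ C.ops n := fun i =>
    S.subst_mem (f := fun t => 2 * F i t) (h2F i) (v := fun _ => bt m (h i))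
      (fun _ => hbtmem i)
  have hFhX : ∀ i, X n (Fh i) y = A X (fun x => 2 * x) (X n (F i) y) := by
    intro i
    have h1 := S.X_subst (f := fun t => 2 * F i t) (h2F i) (v := fun _ => bt m (h i))
      (fun _ => hbtmem i) y
    have h2 := S.X_post (hF i) (S.inj_mem hdbl) (fun j => A X (bt m (h i)) (y j))
    have h3 : X n (Fh i) y = A X (fun x => 2 * x) (X n (F i) fun j => A X (bt m (h i)) (y j)) :=
      h1.trans h2
    rw [h3]
    congr 2
    funext j
    exact hbtfix i j
  have hFheven : ∀ i t, Even (Fh i t) := fun i t => even_two_mul _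
  obtain ⟨c, hc⟩ := eventually_const_finite W k
  obtain ⟨i0, hi0⟩ := hc.exists
  let c0 : Op n := Fh i0
  have hc0 : c0 ∈ C.ops n := hFh i0
  have hkc : ∀ i, k i = c → ∀ t t', (Fh i t = Fh i t' ↔ c0 t = c0 t') := by
    intro i hi t t'
    have h1 := hker i t t'
    have h2 := hker i0 t t'
    rw [hi] at h1
    rw [hi0] at h2
    exact h1.trans h2.symm
  let w : ℕ := X n c0 y
  obtain ⟨V, hV⟩ := S.exists_minSup w
  have hVr : ∀ e ∈ V, e ∈ Set.range c0 := by
    refine S.minSup_sub hV (evens_compl_infinite ?_) fun σ hσ => S.fix_of_range hc0 y σ hσ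
    rintro _ ⟨t, rfl⟩
    exact hFheven i0 t
  have hte : ∀ e, ∃ t, e ∈ V → c0 t = e := by
    intro e
    by_cases he : e ∈ V
    · obtain ⟨t, ht⟩ := hVr e he
      exact ⟨t, fun _ => ht⟩
    · exact ⟨fun _ => 0, fun h => absurd h he⟩
  choose te hte using hte
  -- the glued operations
  have hgaminj : ∀ i, Function.Injective (gam m (h i)) := fun i => gam_injective (hinj i) (hodd i)
  let Gl : ι → Op n := fun i t => 2 * F i (fun j => gam m (h i) (t j))
  have hGl : ∀ i, Gl i ∈ C.ops n := fun i =>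
    S.subst_mem (f := fun t => 2 * F i t) (h2F i) (v := fun _ => gam m (h i))
      (fun _ => S.inj_mem (hgaminj i))
  obtain ⟨g, hg, hgk, hgeven⟩ := S.exists_limit W Gl hGl
  let gP : Op n := fun t => g (fun j => jP m (t j))
  let gQ : Op n := fun t => g (fun j => jQ m (t j))
  have hPmem : jP m ∈ U C := S.inj_mem (jP_injective m)
  have hQmem : jQ m ∈ U C := S.inj_mem (jQ_injective m)
  have hgP : gP ∈ C.ops n := S.subst_mem hg (v := fun _ => jP m) (fun _ => hPmem)
  have hgQ : gQ ∈ C.ops n := S.subst_mem hg (v := fun _ => jQ m) (fun _ => hQmem)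
  have hgPX : X n gP y = X n g y := by
    have h1 := S.X_subst hg (v := fun _ => jP m) (fun _ => hPmem) y
    have h2 : (fun j => A X (jP m) (y j)) = y := funext fun j =>
      hm _ (jP_injective m) (fun n hn => if_pos hn) j
    rw [h2] at h1
    exact h1
  have hgQX : X n gQ y = X n g y := by
    have h1 := S.X_subst hg (v := fun _ => jQ m) (fun _ => hQmem) y
    have h2 : (fun j => A X (jQ m) (y j)) = y := funext fun j =>
      hm _ (jQ_injective m) (fun n hn => if_pos hn) j
    rw [h2] at h1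
    exact h1
  have hGlQ : ∀ (i : ι) (t : Fin (n + 1) → ℕ), Gl i (fun j => jQ m (t j)) = Fh i t := by
    intro i t
    show 2 * F i (fun j => gam m (h i) (jQ m (t j))) = 2 * F i (fun j => bt m (h i) (t j))
    congr 2
    funext j
    exact gam_jQ m (h i) (t j)
  have hGlP : ∀ (i : ι) (t : Fin (n + 1) → ℕ),
      Gl i (fun j => jP m (t j)) = 2 * F i (fun j => jP m (t j)) := by
    intro i t
    show 2 * F i (fun j => gam m (h i) (jP m (t j))) = _
    congr 2
    funext j
    exact gam_jP m (h i) (t j)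
  have hgQk : ∀ t t', gQ t = gQ t' ↔ c0 t = c0 t' := by
    intro t t'
    rw [show (gQ t = gQ t') = (g (fun j => jQ m (t j)) = g (fun j => jQ m (t' j))) from rfl,
      hgk]
    constructor
    · intro h1
      obtain ⟨i, hi1, hi2⟩ := (h1.and hc).exists
      rw [hGlQ, hGlQ] at hi1
      exact (hkc i hi2 t t').1 hi1
    · intro h1
      refine hc.mono fun i hi => ?_
      rw [hGlQ, hGlQ]
      exact (hkc i hi t t').2 h1
  obtain ⟨α, hα, hαc⟩ := exists_factor gQ c0 hgQk (fun t => hgeven _)
  have hαw : A X α w = X n g y := by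
    rw [← hgQX, ← S.X_post hc0 (S.inj_mem hα)]
    congr 1
    funext t
    rw [hαc t]
  have hVP : ∀ e ∈ V, α e ∈ Set.range gP := by
    refine S.minSup_sub_image hV hα (evens_compl_infinite ?_) ?_
    · rintro _ ⟨t, rfl⟩
      exact hgeven _
    · intro σ hσ
      rw [hαw, ← hgPX]
      exact S.fix_of_range hgP y σ hσ
  have hb : ∀ e, ∃ b, e ∈ V → ∀ᶠ i in (W : Filter ι), Fh i (te e) = b := by
    intro e
    by_cases he : e ∈ V
    · obtain ⟨t', ht'⟩ := hVP e he
      refine ⟨2 * f (fun j => jP m (t' j)), fun _ => ?_⟩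
      have h1 : g (fun j => jP m (t' j)) = g (fun j => jQ m (te e j)) := by
        have h2 : gQ (te e) = α e := by
          rw [← hαc, hte e he]
        exact ht'.trans h2.symm
      have h3 := (hgk _ _).1 h1
      refine (h3.and (hlim (fun j => jP m (t' j)))).mono ?_
      rintro i ⟨hi1, hi2⟩
      rw [hGlP, hGlQ] at hi1
      rw [← hi1, hi2]
    · exact ⟨0, fun h => absurd h he⟩
  choose b hb using hb
  have hall : ∀ᶠ i in (W : Filter ι), k i = c ∧ ∀ e ∈ V, Fh i (te e) = b e := by
    refine hc.and ?_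
    rw [Filter.eventually_all_finset]
    exact fun e he => hb e he
  obtain ⟨i1, hi1c, hi1b⟩ := hall.exists
  have hval : ∀ i, k i = c → (∀ e ∈ V, Fh i (te e) = b e) →
      A X (fun x => 2 * x) (X n (F i) y) = A X (fun x => 2 * x) (X n (F i1) y) := by
    intro i hic hib
    obtain ⟨a1, ha1, ha1c⟩ := exists_factor (Fh i) c0 (hkc i hic) (hFheven i)
    obtain ⟨a2, ha2, ha2c⟩ := exists_factor (Fh i1) c0 (hkc i1 hi1c) (hFheven i1)
    have e1 : X n (Fh i) y = A X a1 w := by
      rw [← S.X_post hc0 (S.inj_mem ha1)]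
      congr 1
      funext t
      rw [ha1c t]
    have e2 : X n (Fh i1) y = A X a2 w := by
      rw [← S.X_post hc0 (S.inj_mem ha2)]
      congr 1
      funext t
      rw [ha2c t]
    rw [← hFhX, ← hFhX, e1, e2]
    refine hV.1 _ _ ha1 ha2 fun e he => ?_
    rw [← hte e he, ha1c, ha2c, hib e he, hi1b e he]
  exact ⟨X n (F i1) y, hall.mono fun i hi => S.A_injective hdbl (hval i hi.1 hi.2)⟩

/-- the isomorphism respects limits along ultrafilters. -/
theorem limit_forward (S : Setup C D X) {n : ℕ} {ι : Type*} (W : Ultrafilter ι) (F : ι → Op n)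
    (hF : ∀ i, F i ∈ C.ops n) {f : Op n} (hf : f ∈ C.ops n)
    (hlim : ∀ t, ∀ᶠ i in (W : Filter ι), F i t = f t) (y : Fin (n + 1) → ℕ) :
    ∀ᶠ i in (W : Filter ι), X n (F i) y = X n f y := by
  choose z hz using S.bounded W F hF f hlim
  have hzD : (z : Op n) ∈ D.ops n := by
    refine closed_approx (S.closedD n) z fun T => ?_
    have h1 : ∀ᶠ i in (W : Filter ι), ∀ t ∈ T, X n (F i) t = z t := by
      rw [Filter.eventually_all_finset]
      exact fun t _ => hz t
    obtain ⟨i, hi⟩ := h1.exists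
    exact ⟨X n (F i), S.mem n _ (hF i), hi⟩
  obtain ⟨g, hg, hgz⟩ := S.surj n z hzD
  have hfg : f = g := S.graph_all W F hF hf hg hlim fun y => (hz y).mono fun i hi => by
    rw [hi, hgz]
  rw [hfg, hgz]
  exact hz y

/-- the inverse respects limits along ultrafilters. -/
theorem limit_backward (S : Setup C D X) {n : ℕ} {ι : Type*} (W : Ultrafilter ι) (F : ι → Op n)
    (hF : ∀ i, F i ∈ C.ops n) {f : Op n} (hf : f ∈ C.ops n)
    (hlim : ∀ y, ∀ᶠ i in (W : Filter ι), X n (F i) y = X n f y) (t : Fin (n + 1) → ℕ) :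
    ∀ᶠ i in (W : Filter ι), F i t = f t := by
  choose b hb using S.inv_bounded W F hF fun y => ⟨_, hlim y⟩
  have hbC : (b : Op n) ∈ C.ops n := by
    refine closed_approx (S.closedC n) b fun T => ?_
    have h1 : ∀ᶠ i in (W : Filter ι), ∀ t ∈ T, F i t = b t := by
      rw [Filter.eventually_all_finset]
      exact fun t _ => hb t
    obtain ⟨i, hi⟩ := h1.exists
    exact ⟨F i, hF i, hi⟩
  have hbf : b = f := S.graph_all W F hF hbC hf hb hlim
  rw [← hbf]
  exact hb t

end Setup

end Pool.Agent.R603.AH
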