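import Mathlib
import Pool.Agent.R603.AH.Main

set_option autoImplicit false
set_option linter.unusedVariables false

open Filter Topology FirstOrder

namespace Pool.Agent.R603.AH

/-- the isomorphism as a map on raw operations -/
noncomputable def toX {C D : Clone} (ξ : CloneIso C D) : ∀ n, Op n → Op n := by
  classical
  exact fun n f => if h : f ∈ C.ops n then (ξ.map n ⟨f, h⟩ : Op n) else f

lemma toX_of_mem {C D : Clone} (ξ : CloneIso C D) {n : ℕ} {f : Op n} (h : f ∈ C.ops n) :
    toX ξ n f = (ξ.map n ⟨f, h⟩ : Op n) := by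
  classical
  unfold toX
  exact dif_pos h

theorem setup_of_iso {C D : Clone} (hC : ∀ n, IsClosed (C.ops n)) (hD : ∀ n, IsClosed (D.ops n))
    (hS : ∀ σ : Equiv.Perm ℕ, (fun x : Fin 1 → ℕ => σ (x 0)) ∈ C.ops 0) (ξ : CloneIso C D) :
    Setup C D (toX ξ) where
  closedC := hC
  closedD := hD
  perm := hS
  mem := by
    intro n f hf
    rw [toX_of_mem ξ hf]
    exact (ξ.map n ⟨f, hf⟩).2
  inj := by
    intro n f g hf hg h
    rw [toX_of_mem ξ hf, toX_of_mem ξ hg] at h
    have := (ξ.bij n).1 (Subtype.ext h)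
    exact congrArg Subtype.val this
  surj := by
    intro n g hg
    obtain ⟨⟨f, hf⟩, hfg⟩ := (ξ.bij n).2 ⟨g, hg⟩
    refine ⟨f, hf, ?_⟩
    rw [toX_of_mem ξ hf, hfg]
  proj := by
    intro n i
    rw [toX_of_mem ξ (C.proj_mem n i)]
    exact ξ.map_proj n i
  comp := by
    intro n m f g hf hg
    rw [toX_of_mem ξ (C.comp_mem n m f g hf hg), toX_of_mem ξ hf]
    have h := ξ.map_comp n m ⟨f, hf⟩ (fun i => ⟨g i, hg i⟩)
    rw [h]
    funext x
    have h2 : (fun i => (ξ.map m ⟨g i, hg i⟩ : Op m) x) = fun i => toX ξ m (g i) x :=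
      funext fun i => by rw [toX_of_mem ξ (hg i)]
    exact congrArg (ξ.map n ⟨f, hf⟩ : Op n) h2

lemma ops_closed {C : Clone} (h : IsClosed C.toSet) (n : ℕ) : IsClosed (C.ops n) :=
  (isClosed_sigma_iff.1 h) n

/-- the pieces are homeomorphisms. -/
theorem pieces {C D : Clone} (hC : ∀ n, IsClosed (C.ops n)) (hD : ∀ n, IsClosed (D.ops n))
    (hS : ∀ σ : Equiv.Perm ℕ, (fun x : Fin 1 → ℕ => σ (x 0)) ∈ C.ops 0) (ξ : CloneIso C D)
    (n : ℕ) : IsHomeomorph (ξ.map n) := by
  have S := setup_of_iso hC hD hS ξ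
  let e := Equiv.ofBijective (ξ.map n) (ξ.bij n)
  have hcont : Continuous (ξ.map n) := by
    rw [continuous_iff_ultrafilter]
    intro x W hW
    rw [tendsto_subtype_rng, tendsto_pi_nhds]
    intro y
    rw [nhds_discrete, tendsto_pure]
    have h1 : ∀ t, ∀ᶠ i : C.ops n in (W : Filter (C.ops n)), (i : Op n) t = (x : Op n) t := by
      intro t
      have h2 : Tendsto (fun i : C.ops n => (i : Op n) t) (W : Filter (C.ops n))
          (𝓝 ((x : Op n) t)) :=
        (((continuous_apply t).comp continuous_subtype_val).tendsto x).mono_left hW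
      rwa [nhds_discrete, tendsto_pure] at h2
    have h3 := S.limit_forward W (fun i : C.ops n => (i : Op n)) (fun i => i.2) x.2 h1 y
    refine h3.mono fun i hi => ?_
    rw [toX_of_mem ξ i.2, toX_of_mem ξ x.2] at hi
    exact hi
  have hinv : Continuous e.symm := by
    rw [continuous_iff_ultrafilter]
    intro z W hW
    rw [tendsto_subtype_rng, tendsto_pi_nhds]
    intro t
    rw [nhds_discrete, tendsto_pure]
    have he : ∀ d : D.ops n, toX ξ n (e.symm d : Op n) = (d : Op n) := by
      intro d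
      rw [toX_of_mem ξ (e.symm d).2]
      exact congrArg Subtype.val (e.apply_symm_apply d)
    have h1 : ∀ y, ∀ᶠ d : D.ops n in (W : Filter (D.ops n)),
        toX ξ n (e.symm d : Op n) y = toX ξ n (e.symm z : Op n) y := by
      intro y
      have h2 : Tendsto (fun i : D.ops n => (i : Op n) y) (W : Filter (D.ops n))
          (𝓝 ((z : Op n) y)) :=
        (((continuous_apply y).comp continuous_subtype_val).tendsto z).mono_left hW
      rw [nhds_discrete, tendsto_pure] at h2
      refine h2.mono fun d hd => ?_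
      rw [he, he, hd]
    exact S.limit_backward W (fun d : D.ops n => (e.symm d : Op n)) (fun d => (e.symm d).2)
      (e.symm z).2 h1 t
  exact (Homeomorph.mk e hcont hinv).isHomeomorph

/-- the disjoint union of the pieces is the clone. -/
def glue (C : Clone) : (Σ n, C.ops n) → C.toSet := fun p => ⟨⟨p.1, p.2.1⟩, p.2.2⟩

lemma glue_isHomeomorph (C : Clone) : IsHomeomorph (glue C) := by
  rw [isHomeomorph_iff_isEmbedding_surjective]
  constructor
  · have h1 : IsEmbedding (Sigma.map id (fun n => (Subtype.val : C.ops n → Op n))) :=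
      (isEmbedding_sigmaMap Function.injective_id).2 fun n => IsEmbedding.subtypeVal
    have h2 : (Sigma.map id (fun n => (Subtype.val : C.ops n → Op n))) =
        (Subtype.val : C.toSet → AllOps) ∘ glue C := rfl
    rw [h2] at h1
    have hcont : Continuous (glue C) := by
      refine Continuous.subtype_mk ?_ _
      exact continuous_sigma fun n => continuous_sigmaMk.comp continuous_subtype_val
    exact IsEmbedding.of_comp hcont continuous_subtype_val h1
  · rintro ⟨⟨n, f⟩, hf⟩
    exact ⟨⟨n, ⟨f, hf⟩⟩, rfl⟩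

/-- Every closed clone containing all permutations has automatic homeomorphicity. -/
theorem automatic {C : Clone} (hC : IsClosed C.toSet)
    (hS : ∀ σ : Equiv.Perm ℕ, (fun x : Fin 1 → ℕ => σ (x 0)) ∈ C.ops 0) :
    AutomaticHomeomorphicity C := by
  intro D hD ξ
  have hp := pieces (ops_closed hC) (ops_closed hD) hS ξ
  have h1 : IsHomeomorph (Sigma.map id ξ.map : (Σ n, C.ops n) → Σ n, D.ops n) :=
    IsHomeomorph.sigmaMap Function.bijective_id hp
  have h2 : IsHomeomorph (glue D ∘ Sigma.map id ξ.map) := (glue_isHomeomorph D).comp h1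
  let H := (glue_isHomeomorph C).homeomorph
  have h3 : ξ.total = (glue D ∘ Sigma.map id ξ.map) ∘ H.symm := by
    funext p
    obtain ⟨q, rfl⟩ := H.surjective p
    rw [Function.comp_apply, H.symm_apply_apply]
    rfl
  rw [h3]
  exact h2.comp H.symm.isHomeomorph

/-- invariance of definable relations under permutations. -/
lemma definable_invariant {k : ℕ} {R : Set (Fin k → ℕ)}
    (hR : @Set.Definable ℕ ∅ Language.empty Language.emptyStructure (Fin k) R)
    (σ : Equiv.Perm ℕ) (x : Fin k → ℕ) (hx : x ∈ R) : (fun i => σ (x i)) ∈ R := by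
  let _ : Language.empty.Structure ℕ := Language.emptyStructure
  obtain ⟨φ, rfl⟩ := Set.empty_definable_iff.1 hR
  let g : ℕ ≃[Language.empty] ℕ := { toEquiv := σ }
  have h := FirstOrder.Language.StrongHomClass.realize_formula g φ (v := x)
  exact h.2 hx

theorem pol_closed (A : Set (Σ k : ℕ, Set (Fin k → ℕ))) : IsClosed (Pol A).toSet := by
  rw [isClosed_sigma_iff]
  intro n
  have h1 : (Sigma.mk n ⁻¹' (Pol A).toSet : Set (Op n)) =
      ⋂ R ∈ A, ⋂ r : Fin (n + 1) → (Fin R.1 → ℕ), ⋂ (_ : ∀ j, r j ∈ R.2),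
        {f : Op n | (fun i => f (fun j => r j i)) ∈ R.2} := by
    ext f
    simp only [Set.mem_iInter]
    exact Iff.rfl
  rw [h1]
  refine isClosed_biInter fun R _ => isClosed_iInter fun r => isClosed_iInter fun _ => ?_
  have h2 : Continuous fun f : Op n => (fun i : Fin R.1 => f (fun j => r j i)) :=
    continuous_pi fun i => continuous_apply _
  exact (isClosed_discrete R.2).preimage h2

theorem pol_perm (A : Set (Σ k : ℕ, Set (Fin k → ℕ))) (hA : DefinableInEquality A)
    (σ : Equiv.Perm ℕ) : (fun x : Fin 1 → ℕ => σ (x 0)) ∈ (Pol A).ops 0 := by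
  intro R hR r hr
  exact definable_invariant (hA R hR) σ (r 0) (hr 0)

theorem main (A : Set (Σ k : ℕ, Set (Fin k → ℕ))) (hA : DefinableInEquality A) :
    AutomaticHomeomorphicity (Pol A) :=
  automatic (pol_closed A) (pol_perm A hA)

end Pool.Agent.R603.AH
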